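import Pool.Agent.helper82.SBK.Data

set_option autoImplicit false
set_option maxRecDepth 100000

/-!
# The figure-eight knots `K`, `L` and their connected sum `Q`
-/

namespace Pool.Agent.helper82.SBK

open Pool.Agent.helper82.SB Pool.Agent.helper43.SBI Matrix

/-- The figure-eight knot `K`: the polygon with vertices `(3,0,0)`, `(0,-1,2)`, `(2,0,3)`,
`(1,-1,1)`, `(2,1,1)`, `(3,-1,3)`, `(-3,0,0)`. -/
noncomputable def K8 : PolyKnot := goodK.knot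

/-- The figure-eight knot `L`, the image of `K` under the half turn
`(x, y, z) ↦ (-x, y, -z)`. -/
noncomputable def L8 : PolyKnot := goodL.knot

/-- The connected sum `Q`. -/
noncomputable def Q8 : PolyKnot := goodQ.knot

/-- Points of the trace below the plane of the last edge. -/
theorem trace_low (K : PolyKnot) (w : E3) (h0 : ∀ i, 0 ≤ w ⬝ᵥ K.P i)
    (h1 : ∀ i, w ⬝ᵥ K.P i = 0 → K.P i = K.P 0 ∨ K.P i = K.P (-1)) (x : E3)
    (hx : x ∈ K.trace) (hw : w ⬝ᵥ x ≤ 0) : x ∈ segment ℝ (K.P (-1)) (K.P 0) := by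
  obtain ⟨i, hi⟩ := Set.mem_iUnion.1 hx
  obtain ⟨a, b, ha, hb, hab, rfl⟩ := hi
  rw [dotProduct_add, dotProduct_smul, dotProduct_smul, smul_eq_mul, smul_eq_mul] at hw
  have p1 := mul_nonneg ha (h0 i)
  have p2 := mul_nonneg hb (h0 (i + 1))
  have q1 : a * (w ⬝ᵥ K.P i) = 0 := by linarith
  have q2 : b * (w ⬝ᵥ K.P (i + 1)) = 0 := by linarith
  have hS : ∀ y : E3, y = K.P 0 ∨ y = K.P (-1) → y ∈ segment ℝ (K.P (-1)) (K.P 0) := by
    rintro y (rfl | rfl)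
    · exact right_mem_segment ℝ _ _
    · exact left_mem_segment ℝ _ _
  rcases mul_eq_zero.1 q1 with r1 | r1
  · have hb1 : b = 1 := by linarith
    rw [hb1, one_mul] at q2
    rw [r1, hb1, zero_smul, zero_add, one_smul]
    exact hS _ (h1 _ q2)
  · rcases mul_eq_zero.1 q2 with r2 | r2
    · have ha1 : a = 1 := by linarith
      rw [r2, ha1, zero_smul, add_zero, one_smul]
      exact hS _ (h1 _ r1)
    · exact (convex_segment _ _) (hS _ (h1 _ r1)) (hS _ (h1 _ r2)) ha hb hab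

theorem trace_le (K : PolyKnot) (w : E3) (c : ℝ) (h0 : ∀ i, w ⬝ᵥ K.P i ≤ c) (x : E3)
    (hx : x ∈ K.trace) : w ⬝ᵥ x ≤ c := by
  obtain ⟨i, hi⟩ := Set.mem_iUnion.1 hx
  obtain ⟨a, b, ha, hb, hab, rfl⟩ := hi
  rw [dotProduct_add, dotProduct_smul, dotProduct_smul, smul_eq_mul, smul_eq_mul]
  calc a * (w ⬝ᵥ K.P i) + b * (w ⬝ᵥ K.P (i + 1)) ≤ a * c + b * c :=
        add_le_add (mul_le_mul_of_nonneg_left (h0 i) ha)
          (mul_le_mul_of_nonneg_left (h0 (i + 1)) hb)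
    _ = c := by rw [← add_mul, hab, one_mul]

theorem seg_trace (K : PolyKnot) : segment ℝ (K.P (-1)) (K.P 0) ⊆ K.trace := by
  intro x hx
  exact Set.mem_iUnion.2 ⟨-1, by simpa using hx⟩

/-- The box. -/
def box : Set E3 := Set.Icc (![-4, -4, -4] : E3) (![4, 4, 0] : E3)

theorem mem_box (x : E3) : x ∈ box ↔ (-4 ≤ x 0 ∧ x 0 ≤ 4) ∧ (-4 ≤ x 1 ∧ x 1 ≤ 4) ∧
    (-4 ≤ x 2 ∧ x 2 ≤ 0) := by
  unfold box
  rw [Set.mem_Icc, Pi.le_def, Pi.le_def, Fin.forall_fin_succ, Fin.forall_fin_succ,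
    Fin.forall_fin_succ, Fin.forall_fin_succ, Fin.forall_fin_succ, Fin.forall_fin_succ]
  simp
  tauto

theorem interior_box : interior box = {x : E3 | (-4 < x 0 ∧ x 0 < 4) ∧ (-4 < x 1 ∧ x 1 < 4) ∧
    (-4 < x 2 ∧ x 2 < 0)} := by
  unfold box
  rw [← Set.pi_univ_Icc, interior_pi_set Set.finite_univ]
  ext x
  simp only [interior_Icc, Set.mem_pi, Set.mem_univ, true_implies, Set.mem_Ioo,
    Set.mem_ofPred_eq, Fin.forall_fin_succ]
  simp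

theorem frontier_box (x : E3) : x ∈ frontier box ↔ x ∈ box ∧ ¬ ((-4 < x 0 ∧ x 0 < 4) ∧
    (-4 < x 1 ∧ x 1 < 4) ∧ (-4 < x 2 ∧ x 2 < 0)) := by
  have hc : IsClosed box := isClosed_Icc
  rw [hc.frontier_eq, Set.mem_sdiff, interior_box]
  rfl

theorem dotw (w : Z3) (Z : ZP) (i : ℤ) : w.cv ⬝ᵥ Z.P i = (w.dot (Z.tab (Z.rs i)) : ℝ) := by
  unfold ZP.P
  rw [Z3.dot_cv]

theorem coord (x : E3) : (x 0 = (⟨1, 0, 0⟩ : Z3).cv ⬝ᵥ x) ∧ (x 1 = (⟨0, 1, 0⟩ : Z3).cv ⬝ᵥ x) ∧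
    (x 2 = (⟨0, 0, 1⟩ : Z3).cv ⬝ᵥ x) := by
  simp [Z3.cv, dotProduct, Fin.sum_univ_three]

theorem coord_le (Z : ZP) (K : PolyKnot) (hP : K.P = Z.P) (w : Z3) (c : ℤ)
    (h : ∀ a < Z.n, w.dot (Z.tab a) ≤ c) (x : E3) (hx : x ∈ K.trace) : w.cv ⬝ᵥ x ≤ c := by
  apply trace_le K w.cv c _ x hx
  intro i
  rw [hP, dotw]
  exact_mod_cast h _ (Z.rs_lt i)

theorem neg_dot (w : Z3) (x : E3) : (⟨-w.x, -w.y, -w.z⟩ : Z3).cv ⬝ᵥ x = -(w.cv ⬝ᵥ x) := by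
  simp [Z3.cv, dotProduct, Fin.sum_univ_three]
  ring

theorem L8_trace (x : E3) (hx : x ∈ L8.trace) : (-3 ≤ x 0 ∧ x 0 ≤ 3) ∧ (-1 ≤ x 1 ∧ x 1 ≤ 1) ∧
    (-3 ≤ x 2 ∧ x 2 ≤ 0) := by
  obtain ⟨c0, c1, c2⟩ := coord x
  have h1 := coord_le ZL L8 rfl ⟨1, 0, 0⟩ 3 (by decide) x hx
  have h2 := coord_le ZL L8 rfl ⟨-1, -0, -0⟩ 3 (by decide) x hx
  have h3 := coord_le ZL L8 rfl ⟨0, 1, 0⟩ 1 (by decide) x hx
  have h4 := coord_le ZL L8 rfl ⟨-0, -1, -0⟩ 1 (by decide) x hx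
  have h5 := coord_le ZL L8 rfl ⟨0, 0, 1⟩ 0 (by decide) x hx
  have h6 := coord_le ZL L8 rfl ⟨-0, -0, -1⟩ 3 (by decide) x hx
  have n2 := neg_dot ⟨1, 0, 0⟩ x
  have n4 := neg_dot ⟨0, 1, 0⟩ x
  have n6 := neg_dot ⟨0, 0, 1⟩ x
  simp only at n2 n4 n6
  rw [n2] at h2
  rw [n4] at h4
  rw [n6] at h6
  rw [← c0] at h1 h2
  rw [← c1] at h3 h4
  rw [← c2] at h5 h6
  push_cast at h1 h2 h3 h4 h5 h6
  exact ⟨⟨by linarith, h1⟩, ⟨by linarith, h3⟩, ⟨by linarith, h5⟩⟩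

theorem K8_low (x : E3) (hx : x ∈ K8.trace) (h : x 2 ≤ 0) :
    x ∈ segment ℝ (K8.P (-1)) (K8.P 0) := by
  apply trace_low K8 (⟨0, 0, 1⟩ : Z3).cv _ _ x hx (by rw [← (coord x).2.2]; exact h)
  · intro i
    change 0 ≤ _ ⬝ᵥ ZK.P i
    rw [dotw]
    have : ∀ a < ZK.n, 0 ≤ (⟨0, 0, 1⟩ : Z3).dot (ZK.tab a) := by decide
    exact_mod_cast this _ (ZK.rs_lt i)
  · intro i hi
    change _ ⬝ᵥ ZK.P i = 0 at hi
    rw [dotw] at hi
    have : ∀ a < ZK.n, (⟨0, 0, 1⟩ : Z3).dot (ZK.tab a) = 0 →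
        ZK.tab a = ZK.tab 0 ∨ ZK.tab a = ZK.tab 6 := by decide
    change ZK.P i = ZK.P 0 ∨ ZK.P i = ZK.P (-1)
    unfold ZP.P
    have h0 : ZK.rs 0 = 0 := by decide
    have h6 : ZK.rs (-1) = 6 := by decide
    rw [h0, h6]
    rcases this _ (ZK.rs_lt i) (by exact_mod_cast hi) with h1 | h1
    · left; rw [h1]
    · right; rw [h1]

theorem L8_high (x : E3) (hx : x ∈ L8.trace) (h : 0 ≤ x 2) :
    x ∈ segment ℝ (L8.P (-1)) (L8.P 0) := by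
  apply trace_low L8 (⟨-0, -0, -1⟩ : Z3).cv _ _ x hx
    (by rw [neg_dot ⟨0, 0, 1⟩ x, ← (coord x).2.2]; linarith)
  · intro i
    change 0 ≤ _ ⬝ᵥ ZL.P i
    rw [dotw]
    have : ∀ a < ZL.n, 0 ≤ (⟨-0, -0, -1⟩ : Z3).dot (ZL.tab a) := by decide
    exact_mod_cast this _ (ZL.rs_lt i)
  · intro i hi
    change _ ⬝ᵥ ZL.P i = 0 at hi
    rw [dotw] at hi
    have : ∀ a < ZL.n, (⟨-0, -0, -1⟩ : Z3).dot (ZL.tab a) = 0 →
        ZL.tab a = ZL.tab 0 ∨ ZL.tab a = ZL.tab 6 := by decide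
    change ZL.P i = ZL.P 0 ∨ ZL.P i = ZL.P (-1)
    unfold ZP.P
    have h0 : ZL.rs 0 = 0 := by decide
    have h6 : ZL.rs (-1) = 6 := by decide
    rw [h0, h6]
    rcases this _ (ZL.rs_lt i) (by exact_mod_cast hi) with h1 | h1
    · left; rw [h1]
    · right; rw [h1]

theorem ends1 : L8.P 0 = K8.P (-1) := by
  change ZL.P 0 = ZK.P (-1)
  unfold ZP.P
  have : ZL.tab (ZL.rs 0) = ZK.tab (ZK.rs (-1)) := by decide
  rw [this]

theorem ends2 : L8.P (-1) = K8.P 0 := by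
  change ZL.P (-1) = ZK.P 0
  unfold ZP.P
  have : ZL.tab (ZL.rs (-1)) = ZK.tab (ZK.rs 0) := by decide
  rw [this]

/-- points of the common edge -/
theorem common (x : E3) (hx : x ∈ segment ℝ (K8.P (-1)) (K8.P 0)) : x 2 = 0 := by
  obtain ⟨a, b, ha, hb, hab, rfl⟩ := hx
  have hc := (coord (a • K8.P (-1) + b • K8.P 0)).2.2
  rw [hc, dotProduct_add, dotProduct_smul, dotProduct_smul]
  change a • (_ ⬝ᵥ ZK.P (-1)) + b • (_ ⬝ᵥ ZK.P 0) = 0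
  rw [dotw, dotw]
  have h1 : (⟨0, 0, 1⟩ : Z3).dot (ZK.tab (ZK.rs (-1))) = 0 := by decide
  have h2 : (⟨0, 0, 1⟩ : Z3).dot (ZK.tab (ZK.rs 0)) = 0 := by decide
  rw [h1, h2]
  simp

theorem box_of_L8 (x : E3) (hx : x ∈ L8.trace) : x ∈ box := by
  obtain ⟨⟨h1, h2⟩, ⟨h3, h4⟩, ⟨h5, h6⟩⟩ := L8_trace x hx
  rw [mem_box]
  exact ⟨⟨by linarith, by linarith⟩, ⟨by linarith, by linarith⟩, ⟨by linarith, h6⟩⟩

theorem seg_L8 : segment ℝ (K8.P (-1)) (K8.P 0) ⊆ L8.trace := by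
  have h := seg_trace L8
  rwa [ends1, ends2, segment_symm] at h

theorem glued : Glued K8 L8 Q8 := by
  refine ⟨ends1, ends2, ⟨box, isCompact_Icc, convex_Icc _ _, ?_, ?_, box_of_L8, ?_⟩, rfl, ?_, ?_⟩
  · rw [interior_box]
    refine ⟨![0, 0, -1], ?_⟩
    simp
  · ext x
    constructor
    · rintro ⟨h1, h2⟩
      rw [mem_box] at h2
      exact K8_low x h1 h2.2.2.2
    · intro hx
      exact ⟨seg_trace K8 hx, box_of_L8 x (seg_L8 hx)⟩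
  · ext x
    constructor
    · rintro ⟨h1, h2⟩
      rw [frontier_box] at h2
      obtain ⟨⟨b1, b2⟩, ⟨b3, b4⟩, ⟨b5, b6⟩⟩ := L8_trace x h1
      have h3 : 0 ≤ x 2 := by
        by_contra hc
        push Not at hc
        exact h2.2 ⟨⟨by linarith, by linarith⟩, ⟨by linarith, by linarith⟩, ⟨by linarith, hc⟩⟩
      have h4 := L8_high x h1 h3
      rwa [ends1, ends2, segment_symm] at h4
    · intro hx
      refine ⟨seg_L8 hx, ?_⟩
      rw [frontier_box]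
      refine ⟨box_of_L8 x (seg_L8 hx), ?_⟩
      rintro ⟨-, -, -, h⟩
      rw [common x hx] at h
      exact lt_irrefl _ h
  · intro i h0 h1
    change ZQ.P i = ZK.P i
    change i < ((7 : ℕ) : ℤ) at h1
    unfold ZP.P
    have : ∀ a < 7, ZQ.tab (ZQ.rs (a : ℕ)) = ZK.tab (ZK.rs (a : ℕ)) := by decide
    obtain ⟨a, rfl⟩ := Int.eq_ofNat_of_zero_le h0
    rw [this a (by omega)]
  · intro i h0 h1
    change ZQ.P (((7 : ℕ) : ℤ) - 1 + i) = ZL.P i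
    change i < ((7 : ℕ) : ℤ) at h1
    unfold ZP.P
    have : ∀ a < 7, ZQ.tab (ZQ.rs (((7 : ℕ) : ℤ) - 1 + (a : ℕ))) = ZL.tab (ZL.rs (a : ℕ)) := by
      decide
    obtain ⟨a, rfl⟩ := Int.eq_ofNat_of_zero_le h0
    rw [this a (by omega)]

theorem connectedSum : IsConnectedSum K8 L8 Q8 :=
  ⟨K8, L8, Q8, Equivalent.refl _, Equivalent.refl _, glued, Equivalent.refl _⟩

theorem maxima_seven (P : ℤ → E3) (hP : ∀ i, P (i + 7) = P i) (v : E3) :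
    maxima 7 P v ≤ 3 := by
  rw [maxima_eq_sum]
  have key : ∀ i : ℤ, SB.D (v ⬝ᵥ edge P (i - 1)) (v ⬝ᵥ edge P i) +
      SB.D (v ⬝ᵥ edge P (i + 1 - 1)) (v ⬝ᵥ edge P (i + 1)) ≤ 1 := by
    intro i
    unfold SB.D
    rw [add_sub_cancel_right]
    by_cases h1 : 0 < v ⬝ᵥ edge P (i - 1) ∧ v ⬝ᵥ edge P i < 0
    · have h2 : ¬ (0 < v ⬝ᵥ edge P i ∧ v ⬝ᵥ edge P (i + 1) < 0) := fun h => by
        have := h.1; have := h1.2; linarith
      simp [h1, h2]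
    · simp only [h1, if_false, zero_add]
      split_ifs <;> simp
  have k0 := key 0
  have k1 := key 1
  have k2 := key 2
  have k3 := key 3
  have k4 := key 4
  have k5 := key 5
  have k6 := key 6
  have e7 : edge P 7 = edge P 0 := by
    unfold edge
    have := hP 0
    have h2 := hP 1
    norm_num at this h2 ⊢
    rw [this, h2]
  have e6 : edge P 6 = edge P (-1) := by
    unfold edge
    have := hP 0
    have h2 := hP (-1)
    norm_num at this h2 ⊢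
    rw [this, h2]
  norm_num at k0 k1 k2 k3 k4 k5 k6
  rw [e7] at k6
  simp only [Finset.sum_range_succ, Finset.sum_range_zero]
  norm_num
  rw [e6] at k5 k6 ⊢
  omega

theorem superbridge_le_three (K : PolyKnot) (hn : K.n = 7) : superbridge K ≤ 3 := by
  apply Nat.sInf_le
  refine ⟨K, Equivalent.refl K, fun v => ?_⟩
  rw [hn]
  apply maxima_seven
  intro i
  have := K.per i
  rw [hn] at this
  exact this

theorem sbK : superbridge K8 ≤ 3 := superbridge_le_three K8 rfl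

theorem sbL : superbridge L8 ≤ 3 := superbridge_le_three L8 rfl

end Pool.Agent.helper82.SBK
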