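import Pool.Agent.helper82.SBK.Colour
import Pool.Agent.helper82.SBK.Knots

set_option autoImplicit false
set_option maxRecDepth 100000

/-!
# The knots `K` and `L` are nontrivial (colourings modulo 5)
-/

namespace Pool.Agent.helper82.SBK

open Pool.Agent.helper82.SB Pool.Agent.helper43.SBI

/-- The affine permutations of `ℤ / 5`. -/
def G5 : Subgroup (Equiv.Perm (ZMod 5)) where
  carrier := {g | ∀ x y, g (2 * y - x) = 2 * g y - g x}
  mul_mem' := by
    intro a b ha hb x y
    rw [Equiv.Perm.mul_apply, hb, ha]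
    rfl
  one_mem' := fun _ _ => rfl
  inv_mem' := by
    intro a ha x y
    apply a.injective
    have h : ∀ z, a (a⁻¹ z) = z := fun z => a.apply_symm_apply z
    rw [h, ha, h, h]

/-- The dihedral quandle modulo 5. -/
def Q5 : AQ (ZMod 5) G5 where
  del y := ⟨Equiv.subLeft (2 * y), by
    intro x z
    change 2 * y - (2 * z - x) = 2 * (2 * y - z) - (2 * y - x)
    ring⟩
  tau y := y
  del_smul := by
    rintro ⟨g, hg⟩ y
    apply Subtype.ext
    ext1 x
    change 2 * g y - x = g (2 * y - g⁻¹ x)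
    have h : g (g⁻¹ x) = x := g.apply_symm_apply x
    rw [hg, h]
  del_self y := by
    change 2 * y - y = y
    ring
  tau_smul _ _ := rfl
  del_tau _ := rfl

theorem Q5_act (y x : ZMod 5) (s : ℤ) (hs : s = 1 ∨ s = -1) :
    Q5.del y ^ s • x = 2 * y - x := by
  rcases hs with rfl | rfl
  · rw [zpow_one]
    rfl
  · rw [zpow_neg_one]
    have h : Q5.del y • (2 * y - x) = x := by
      change 2 * y - (2 * y - x) = x
      ring
    nth_rewrite 1 [← h]
    rw [inv_smul_smul]

/-- the colours modulo 5 of `K` and `L` -/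
def tb5 (a k : ℕ) : ZMod 5 :=
  (([[0, 2, 3], [3], [3, 1], [1], [1], [1, 0], [0]] : List (List (ZMod 5))).getD a []).getD k 0

theorem tcol_of (Z : ZP) (h1 : ∀ a < Z.n, a + 1 < Z.n → tb5 (a + 1) 0 = tb5 a (Z.totZ ez a))
    (h2 : tb5 0 0 = tb5 (Z.n - 1) (Z.totZ ez (Z.n - 1)))
    (h3 : ∀ a < Z.n, ∀ b < Z.n, Z.U ez a b →
      tb5 a (Z.cntZ ez a b + 1) = 2 * tb5 b (Z.cntZ ez b a) - tb5 a (Z.cntZ ez a b)) :
    TCol Q5 Z ez tb5 where
  vtx a ha := h1 a (by omega) ha
  vtx' := h2
  crs a ha b hb hab := by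
    rw [h3 a ha b hb hab, Q5_act]
    split_ifs <;> simp

theorem tcolK : TCol Q5 ZK ez tb5 :=
  tcol_of ZK (by decide +kernel) (by decide +kernel) (by decide +kernel)

theorem tcolL : TCol Q5 ZL ez tb5 :=
  tcol_of ZL (by decide +kernel) (by decide +kernel) (by decide +kernel)

/-- The family of singletons. -/
def sing5 : Set (Set (ZMod 5)) := {A | ∃ y, A = {y}}

theorem sing5_closed : ClosedFam Q5 sing5 := by
  rintro A ⟨a, rfl⟩ y hy z hz
  rw [Set.mem_singleton_iff] at hy hz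
  rw [hy, hz]
  constructor
  · exact Q5.del_self a
  · rw [Set.mem_singleton_iff, inv_smul_eq_iff]
    exact (Q5.del_self a).symm

theorem full5 (Z : ZP) (K : PolyKnot) (hn : K.n = Z.n) (hP : K.P = Z.P) (h1 : 1 < Z.n)
    (h2 : 1 ≤ Z.totZ ez 0) :
    Full sing5 K ez.cv (tcol Z 1 tb5) := by
  rintro A ⟨y, rfl⟩
  have hcol : ∀ (a k : ℕ), a < Z.n → tcol Z 1 tb5 a k = tb5 a k := by
    intro a k ha
    unfold tcol
    rw [one_zpow, Z.rs_natCast ha]
    rfl
  by_cases hy : y = 0
  · refine ⟨0, 1, ?_, ?_⟩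
    · rw [Z.tot_eq ez K hn hP]
      have : Z.rs 0 = 0 := by
        have := Z.rs_natCast (a := 0) (by omega)
        exact_mod_cast this
      rw [this]
      exact h2
    · have := hcol 0 1 (by omega)
      rw [Nat.cast_zero] at this
      rw [this, hy, Set.mem_singleton_iff]
      decide
  · refine ⟨0, 0, Nat.zero_le _, ?_⟩
    have := hcol 0 0 (by omega)
    rw [Nat.cast_zero] at this
    rw [this, Set.mem_singleton_iff]
    exact fun h => hy (h.symm.trans (by decide))

theorem det3_eq_zero {v a b c : E3} (hv : v ≠ 0) (ha : v ⬝ᵥ a = 0) (hb : v ⬝ᵥ b = 0)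
    (hc : v ⬝ᵥ c = 0) : det3 a b c = 0 := by
  have h : (Matrix.of ![a, b, c]).det = 0 := by
    rw [← Matrix.exists_mulVec_eq_zero_iff]
    refine ⟨v, hv, ?_⟩
    funext i
    fin_cases i
    · simpa [Matrix.mulVec, dotProduct_comm] using ha
    · simpa [Matrix.mulVec, dotProduct_comm] using hb
    · simpa [Matrix.mulVec, dotProduct_comm] using hc
  rw [Matrix.det_fin_three] at h
  simp only [Matrix.of_apply, Matrix.cons_val_zero, Matrix.cons_val_one, Matrix.cons_val] at h
  unfold det3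
  linarith

theorem planar_dot {L : PolyKnot} {v : E3} (hL : ∀ i j, v ⬝ᵥ L.P i = v ⬝ᵥ L.P j) (i : ℤ) :
    v ⬝ᵥ edge L.P i = 0 := by
  unfold edge
  rw [dotProduct_sub, hL (i + 1) i, sub_self]

theorem planar_not_under {L : PolyKnot} {v : E3} (hv : v ≠ 0)
    (hL : ∀ i j, v ⬝ᵥ L.P i = v ⬝ᵥ L.P j) (i j : ℤ) : ¬ Under L v i j := by
  rintro ⟨-, -, -, h⟩
  have : det3 (L.P j - L.P i) (edge L.P i) (edge L.P j) = 0 :=
    det3_eq_zero hv (by rw [dotProduct_sub, hL j i, sub_self]) (planar_dot hL i) (planar_dot hL j)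
  unfold alt at h
  rw [this, zero_div] at h
  exact lt_irrefl _ h

theorem planar_view {L : PolyKnot} {v : E3} (hv : v ≠ 0)
    (hL : ∀ i j, v ⬝ᵥ L.P i = v ⬝ᵥ L.P j) : View L v where
  vert i j x c _ _ h := by
    have h1 := congrArg (fun y => v ⬝ᵥ y) h
    simp only [dotProduct_add, dotProduct_smul, planar_dot hL, smul_eq_mul, mul_zero,
      add_zero] at h1
    rw [hL j i] at h1
    have h2 : c * (v ⬝ᵥ v) = 0 := by linarith
    rcases mul_eq_zero.1 h2 with h3 | h3
    · exact h3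
    · exact absurd (dotProduct_self_eq_zero.1 h3) hv
  triple i j _ h := absurd h (planar_not_under hv hL i j)

theorem planar_cnt {L : PolyKnot} {v : E3} (hv : v ≠ 0)
    (hL : ∀ i j, v ⬝ᵥ L.P i = v ⬝ᵥ L.P j) (i : ℤ) (x : ℝ) : cnt L v i x = 0 := by
  unfold cnt
  rw [Finset.card_eq_zero]
  ext l
  simp only [Finset.mem_filter, Finset.notMem_empty, iff_false]
  intro h
  exact planar_not_under hv hL i l h.2.1

/-- A knot with a nonconstant colouring modulo 5 is nontrivial. -/
theorem nontrivial_of (inv : InvStatement) (K : PolyKnot) (e : E3) (hv : View K e)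
    (T : ℤ → ℕ → ZMod 5) (hT : IsColoring Q5 K e T) (hF : Full sing5 K e T) : ¬ Trivial K := by
  rintro ⟨L, hKL, v, hv0, hL⟩
  obtain ⟨T', hT', hF'⟩ := inv Q5 sing5 sing5_closed K L hKL ⟨e, hv, T, hT, hF⟩ v
    (planar_view hv0 hL)
  have hstep : ∀ i, T' (i + 1) 0 = T' i 0 := by
    intro i
    have := hT'.vertex i
    rwa [planar_cnt hv0 hL] at this
  have hall : ∀ i : ℤ, T' i 0 = T' 0 0 := by
    intro i
    induction i using Int.induction_on with
    | zero => rfl
    | succ k ih => rw [hstep]; exact ih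
    | pred k ih =>
      have := hstep (-(k : ℤ) - 1)
      rw [sub_add_cancel] at this
      rw [← this]; exact ih
  obtain ⟨i, k, hk, hik⟩ := hF' {T' 0 0} ⟨_, rfl⟩
  rw [planar_cnt hv0 hL] at hk
  obtain rfl : k = 0 := by omega
  exact hik (hall i)

theorem K8_nontrivial (inv : InvStatement) : ¬ Trivial K8 :=
  nontrivial_of inv K8 ez.cv (viewK.view ZK K8 rfl rfl) _
    (tcolK.isColoring Q5 1 (fun _ => rfl) K8 rfl rfl)
    (full5 ZK K8 rfl rfl (by decide) (by decide +kernel))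

theorem L8_nontrivial (inv : InvStatement) : ¬ Trivial L8 :=
  nontrivial_of inv L8 ez.cv (viewL.view ZL L8 rfl rfl) _
    (tcolL.isColoring Q5 1 (fun _ => rfl) L8 rfl rfl)
    (full5 ZL L8 rfl rfl (by decide) (by decide +kernel))

end Pool.Agent.helper82.SBK
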