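import Pool.Agent.helper82.SBK.RootCol
import Pool.Agent.helper82.SBK.Dihedral
import Pool.Agent.helper38.SB.Affine
import Pool.Agent.helper81.SBX.Five

set_option autoImplicit false
set_option maxRecDepth 100000

/-!
# The superbridge index of the connected sum of two figure-eight knots is at least five
-/

namespace Pool.Agent.helper82.SBK

open Pool.Agent.helper82.SB Pool.Agent.helper43.SBI

/-- `L` is equivalent to `K` (it is its image under a rotation). -/
theorem equiv8 : Equivalent K8 L8 := by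
  refine KK.good_rot02.1 ?_ K8 L8 ⟨rfl, fun i => ?_⟩
  · rw [Matrix.det_diagonal, Fin.prod_univ_three]
    simp
  · change ZL.P i = (Matrix.diagonal ![-1, 1, -1]).mulVec (ZK.P i)
    have h : ∀ a < 7, ZL.tab a = ⟨-(ZK.tab a).x, (ZK.tab a).y, -(ZK.tab a).z⟩ := by decide
    unfold ZP.P
    have hr : ZL.rs i = ZK.rs i := rfl
    rw [hr, h _ (ZK.rs_lt i)]
    funext k
    rw [Matrix.mulVec_diagonal]
    fin_cases k <;> simp [Z3.cv]

theorem five8 : 5 ≤ superbridge Q8 := by
  refine Pool.Agent.helper81.SBX.five_le SBA.six_tt Lt8 SBA.finrank_V Q8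
    ⟨ez.cv, view8, T8, coloring8, full8⟩ ?_
  intro U h1 h2 m hm h
  refine SBA.no_unit (U : SBA.D) h1 ?_ U.ne_zero m hm h
  rw [← Units.val_inv_eq_inv_val]
  exact h2

theorem sum8 : IsConnectedSum K8 K8 Q8 :=
  ⟨K8, L8, Q8, Equivalent.refl _, equiv8, glued, Equivalent.refl _⟩

theorem nontrivial8 : ¬ Trivial K8 := K8_nontrivial invStatement

/-- The knot `K8` is the figure-eight knot; its connected sum `Q8` with itself has superbridge index
at least `5`, although `sb K8 ≤ 3`. -/
theorem main8 : ¬ Trivial K8 ∧ superbridge K8 ≤ 3 ∧ IsConnectedSum K8 K8 Q8 ∧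
    5 ≤ superbridge Q8 :=
  ⟨nontrivial8, sbK, sum8, five8⟩

end Pool.Agent.helper82.SBK
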