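import Pool.Agent.helper82.SBK.ZPoly

set_option autoImplicit false

/-!
# Colourings of integral polygons from finite tables
-/

namespace Pool.Agent.helper82.SBK

open Pool.Agent.helper82.SB Pool.Agent.helper43.SBI

variable {Y G : Type*} [Group G] [MulAction G Y]

/-- The checks for a colouring: `tb a k` is the colour of the edge `a` after `k` undercrossings. -/
structure TCol (Q : AQ Y G) (Z : ZP) (e : Z3) (tb : ℕ → ℕ → Y) : Prop where
  vtx : ∀ a, a + 1 < Z.n → tb (a + 1) 0 = tb a (Z.totZ e a)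
  vtx' : Q.tau (tb 0 0) = tb (Z.n - 1) (Z.totZ e (Z.n - 1))
  crs : ∀ a < Z.n, ∀ b < Z.n, Z.U e a b →
    tb a (Z.cntZ e a b + 1) =
      Q.del (tb b (Z.cntZ e b a)) ^ (if 0 < Z.dd e a b then (1 : ℤ) else -1) •
        tb a (Z.cntZ e a b)

/-- The colouring on all edges. -/
def tcol (Z : ZP) (τ : Equiv.Perm Y) (tb : ℕ → ℕ → Y) (i : ℤ) (k : ℕ) : Y :=
  (τ ^ (i / (Z.n : ℤ))) (tb (Z.rs i) k)

section

variable (Q : AQ Y G) (τ : Equiv.Perm Y) (hτ : ∀ y, τ y = Q.tau y)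

include hτ in
theorem del_inv (y : Y) : Q.del (τ⁻¹ y) = Q.del y := by
  have h1 : τ (τ⁻¹ y) = y := τ.apply_symm_apply _
  rw [← Q.del_tau (τ⁻¹ y), ← hτ, h1]

include hτ in
theorem smul_inv (g : G) (y : Y) : τ⁻¹ (g • y) = g • τ⁻¹ y := by
  apply τ.injective
  have h1 : τ (τ⁻¹ (g • y)) = g • y := τ.apply_symm_apply _
  have h2 : τ (τ⁻¹ y) = y := τ.apply_symm_apply _
  rw [h1, hτ, Q.tau_smul, ← hτ, h2]

include hτ in
theorem del_zpow (m : ℤ) : ∀ y : Y, Q.del ((τ ^ m) y) = Q.del y := by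
  induction m using Int.induction_on with
  | zero => intro y; simp
  | succ k ih =>
    intro y
    rw [zpow_add_one, Equiv.Perm.mul_apply, ih, hτ, Q.del_tau]
  | pred k ih =>
    intro y
    rw [zpow_sub_one, Equiv.Perm.mul_apply, ih, del_inv Q τ hτ]

include hτ in
theorem smul_zpow (m : ℤ) : ∀ (g : G) (y : Y), (τ ^ m) (g • y) = g • (τ ^ m) y := by
  induction m using Int.induction_on with
  | zero => intro g y; simp
  | succ k ih =>
    intro g y
    rw [zpow_add_one, Equiv.Perm.mul_apply, Equiv.Perm.mul_apply, hτ, Q.tau_smul, ih, ← hτ]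
  | pred k ih =>
    intro g y
    rw [zpow_sub_one, Equiv.Perm.mul_apply, Equiv.Perm.mul_apply, smul_inv Q τ hτ, ih]

theorem div_mod (Z : ZP) (i : ℤ) : (Z.n : ℤ) * (i / Z.n) + Z.rs i = i := by
  rw [Z.rs_cast]
  exact Int.mul_ediv_add_emod i Z.n

theorem div_of (Z : ZP) (i q : ℤ) (r : ℕ) (hr : r < Z.n) (h : i = Z.n * q + r) :
    i / Z.n = q ∧ Z.rs i = r := by
  have hpos : (0 : ℤ) < Z.n := by exact_mod_cast Z.pos
  have h1 : i / Z.n = q := by
    rw [h, Int.add_comm, Int.add_mul_ediv_left _ _ hpos.ne',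
      Int.ediv_eq_zero_of_lt (by omega) (by exact_mod_cast hr), zero_add]
  refine ⟨h1, ?_⟩
  have h2 := div_mod Z i
  rw [h1] at h2
  omega

include hτ in
/-- The finite checks give a colouring. -/
theorem TCol.isColoring {Z : ZP} {e : Z3} {tb : ℕ → ℕ → Y} (h : TCol Q Z e tb)
    (K : PolyKnot) (hn : K.n = Z.n) (hP : K.P = Z.P) :
    IsColoring Q K e.cv (tcol Z τ tb) where
  per i k := by
    unfold tcol
    have hpos : (0 : ℤ) < Z.n := by exact_mod_cast Z.pos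
    rw [hn, Z.rs_add, Int.add_ediv_of_dvd_right (dvd_refl _), Int.ediv_self hpos.ne',
      add_comm, zpow_add, zpow_one, Equiv.Perm.mul_apply, hτ]
  vertex i := by
    rw [Z.tot_eq e K hn hP]
    unfold tcol
    have h0 := div_mod Z i
    have hlt := Z.rs_lt i
    rcases Nat.lt_or_ge (Z.rs i + 1) Z.n with hc | hc
    · obtain ⟨q1, q2⟩ := div_of Z (i + 1) (i / Z.n) (Z.rs i + 1) hc (by push_cast; linarith)
      rw [q1, q2, h.vtx _ hc]
    · have hr : Z.rs i = Z.n - 1 := by omega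
      have hr' : (Z.rs i : ℤ) = Z.n - 1 := by omega
      obtain ⟨q1, q2⟩ := div_of Z (i + 1) (i / Z.n + 1) 0 Z.pos
        (by push_cast; rw [hr'] at h0; linarith)
      rw [q1, q2, hr, ← h.vtx', zpow_add_one, Equiv.Perm.mul_apply, hτ]
  cross i j hij := by
    have hU := (Z.under_iff e K hP i j).1 hij
    have hd1 : Z.de e (Z.rs i) (Z.rs j) ≠ 0 := by
      rw [Z.de_eq]; exact neg_ne_zero.2 hU.1
    have hd2 : Z.de e (Z.rs j) (Z.rs i) ≠ 0 := by
      rw [Z.de_eq, Z.dd_symm, neg_neg]; exact hU.1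
    rw [Z.cnt_eq e K hn hP i j hd1, Z.cnt_eq e K hn hP j i hd2, Z.sgn_eq e K hP]
    unfold tcol
    rw [h.crs _ (Z.rs_lt i) _ (Z.rs_lt j) hU, smul_zpow Q τ hτ, del_zpow Q τ hτ]

end

end Pool.Agent.helper82.SBK
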