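import Pool.Agent.helper82.SBK.ZPoly

set_option autoImplicit false
set_option maxRecDepth 100000

/-!
# The figure-eight knots `K`, `L` and their connected sum `Q`: data
-/

namespace Pool.Agent.helper82.SBK

open Pool.Agent.helper82.SB Pool.Agent.helper43.SBI Matrix

/-- vertices of the figure-eight knot `K` -/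
def tabK (a : ℕ) : Z3 :=
  ([⟨3, 0, 0⟩, ⟨0, -1, 2⟩, ⟨2, 0, 3⟩, ⟨1, -1, 1⟩, ⟨2, 1, 1⟩,
    ⟨3, -1, 3⟩, ⟨-3, 0, 0⟩] : List Z3).getD a ⟨0, 0, 0⟩

/-- vertices of the figure-eight knot `L`, the image of `K` under `(x, y, z) ↦ (-x, y, -z)` -/
def tabL (a : ℕ) : Z3 :=
  ([⟨-3, 0, 0⟩, ⟨0, -1, -2⟩, ⟨-2, 0, -3⟩, ⟨-1, -1, -1⟩, ⟨-2, 1, -1⟩,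
    ⟨-3, -1, -3⟩, ⟨3, 0, 0⟩] : List Z3).getD a ⟨0, 0, 0⟩

/-- vertices of the connected sum `Q` -/
def tabQ (a : ℕ) : Z3 :=
  ([⟨3, 0, 0⟩, ⟨0, -1, 2⟩, ⟨2, 0, 3⟩, ⟨1, -1, 1⟩, ⟨2, 1, 1⟩,
    ⟨3, -1, 3⟩, ⟨-3, 0, 0⟩, ⟨0, -1, -2⟩, ⟨-2, 0, -3⟩, ⟨-1, -1, -1⟩,
    ⟨-2, 1, -1⟩, ⟨-3, -1, -3⟩] : List Z3).getD a ⟨0, 0, 0⟩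

/-- the polygon `K` -/
def ZK : ZP := ⟨7, tabK, by norm_num⟩

/-- separating functionals -/
def sepK (a b : ℕ) : Z3 :=
  (([[⟨0, 0, 0⟩, ⟨0, 0, 0⟩, ⟨2, -4, 1⟩, ⟨-4, 2, -5⟩, ⟨0, 1, 1⟩, ⟨-1, 6, 4⟩],
    [⟨0, 0, 0⟩, ⟨0, 0, 0⟩, ⟨0, 0, 0⟩, ⟨0, 0, -1⟩, ⟨1, 0, -1⟩, ⟨1, 0, -2⟩,
      ⟨0, 0, -1⟩],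
    [⟨0, 0, 0⟩, ⟨0, 0, 0⟩, ⟨0, 0, 0⟩, ⟨0, 0, 0⟩, ⟨2, 0, -1⟩, ⟨-2, -3, 3⟩,
      ⟨0, 0, -1⟩],
    [⟨0, 0, 0⟩, ⟨0, 0, 0⟩, ⟨0, 0, 0⟩, ⟨0, 0, 0⟩, ⟨0, 0, 0⟩, ⟨-1, 0, 2⟩,
      ⟨0, 0, -1⟩],
    [⟨0, 0, 0⟩, ⟨0, 0, 0⟩, ⟨0, 0, 0⟩, ⟨0, 0, 0⟩, ⟨0, 0, 0⟩, ⟨0, 0, 0⟩,
      ⟨0, 0, -1⟩],
    [],
    []] : List (List Z3)).getD a []).getD b ⟨0, 0, 0⟩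

/-- functionals for the view -/
def vaK (a : ℕ) : Z3 :=
  ([⟨-1, 0, 0⟩, ⟨-1, 0, 0⟩, ⟨-1, 0, 0⟩, ⟨-1, 0, 0⟩, ⟨-1, 0, 0⟩,
    ⟨-1, 0, 0⟩, ⟨-1, 0, 0⟩] : List Z3).getD a ⟨0, 0, 0⟩

/-- functionals for the view -/
def vbK (a b : ℕ) : Z3 :=
  (([[⟨0, 0, 0⟩, ⟨-1, 0, 0⟩, ⟨-1, 0, 0⟩, ⟨-1, 0, 0⟩, ⟨0, 0, 1⟩, ⟨-1, 0, 1⟩],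
    [⟨0, 0, 0⟩, ⟨0, 0, 0⟩, ⟨1, 0, 0⟩, ⟨0, 0, -1⟩, ⟨1, 0, 0⟩, ⟨1, 0, -2⟩,
      ⟨0, 0, -1⟩],
    [⟨0, 0, -1⟩, ⟨0, 0, 0⟩, ⟨0, 0, 0⟩, ⟨0, 0, -1⟩, ⟨1, 0, -1⟩, ⟨1, 0, -2⟩,
      ⟨0, 0, -1⟩],
    [⟨2, 0, 3⟩, ⟨0, 0, 1⟩, ⟨0, 0, 0⟩, ⟨0, 0, 0⟩, ⟨1, 0, 0⟩, ⟨-1, 0, 2⟩,
      ⟨0, 0, -1⟩],
    [⟨-2, 0, -3⟩, ⟨0, 0, 1⟩, ⟨-1, 0, 1⟩, ⟨0, 0, 0⟩, ⟨0, 0, 0⟩, ⟨-1, 0, 1⟩,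
      ⟨0, 0, -1⟩],
    [⟨0, 0, -1⟩, ⟨-1, 0, 0⟩, ⟨-1, 0, 0⟩, ⟨-1, 0, 0⟩, ⟨0, 0, 0⟩, ⟨0, 0, 0⟩,
      ⟨0, 0, -1⟩],
    [⟨1, 0, 0⟩, ⟨0, 0, 1⟩, ⟨0, 0, 1⟩, ⟨0, 0, 1⟩, ⟨0, 0, 1⟩]] : List (List Z3)).getD a []).getD b ⟨0, 0, 0⟩

/-- the polygon `L` -/
def ZL : ZP := ⟨7, tabL, by norm_num⟩

/-- separating functionals -/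
def sepL (a b : ℕ) : Z3 :=
  (([[⟨0, 0, 0⟩, ⟨0, 0, 0⟩, ⟨-2, -4, -1⟩, ⟨4, 2, 5⟩, ⟨0, 1, -1⟩, ⟨1, 6, -4⟩],
    [⟨0, 0, 0⟩, ⟨0, 0, 0⟩, ⟨0, 0, 0⟩, ⟨0, 0, 1⟩, ⟨-1, 0, 1⟩, ⟨-1, 0, 2⟩,
      ⟨0, 0, 1⟩],
    [⟨0, 0, 0⟩, ⟨0, 0, 0⟩, ⟨0, 0, 0⟩, ⟨0, 0, 0⟩, ⟨-2, 0, 1⟩, ⟨2, -3, -3⟩,
      ⟨0, 0, 1⟩],
    [⟨0, 0, 0⟩, ⟨0, 0, 0⟩, ⟨0, 0, 0⟩, ⟨0, 0, 0⟩, ⟨0, 0, 0⟩, ⟨1, 0, -2⟩,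
      ⟨0, 0, 1⟩],
    [⟨0, 0, 0⟩, ⟨0, 0, 0⟩, ⟨0, 0, 0⟩, ⟨0, 0, 0⟩, ⟨0, 0, 0⟩, ⟨0, 0, 0⟩,
      ⟨0, 0, 1⟩],
    [],
    []] : List (List Z3)).getD a []).getD b ⟨0, 0, 0⟩

/-- functionals for the view -/
def vaL (a : ℕ) : Z3 :=
  ([⟨-1, 0, 0⟩, ⟨-1, 0, 0⟩, ⟨-1, 0, 0⟩, ⟨-1, 0, 0⟩, ⟨-1, 0, 0⟩,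
    ⟨-1, 0, 0⟩, ⟨-1, 0, 0⟩] : List Z3).getD a ⟨0, 0, 0⟩

/-- functionals for the view -/
def vbL (a b : ℕ) : Z3 :=
  (([[⟨0, 0, 0⟩, ⟨0, 0, -1⟩, ⟨0, 0, -1⟩, ⟨0, 0, -1⟩, ⟨0, 0, -1⟩, ⟨1, 0, -1⟩],
    [⟨0, 0, 0⟩, ⟨0, 0, 0⟩, ⟨-1, 0, 0⟩, ⟨-1, 0, 0⟩, ⟨-1, 0, 0⟩, ⟨-1, 0, 2⟩,
      ⟨0, 0, 1⟩],
    [⟨0, 0, 1⟩, ⟨0, 0, 0⟩, ⟨0, 0, 0⟩, ⟨0, 0, 1⟩, ⟨-1, 0, 1⟩, ⟨-1, 0, 2⟩,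
      ⟨0, 0, 1⟩],
    [⟨-2, 0, -3⟩, ⟨0, 0, -1⟩, ⟨0, 0, 0⟩, ⟨0, 0, 0⟩, ⟨-1, 0, 0⟩, ⟨1, 0, -2⟩,
      ⟨0, 0, 1⟩],
    [⟨2, 0, 3⟩, ⟨0, 0, -1⟩, ⟨1, 0, -1⟩, ⟨0, 0, 0⟩, ⟨0, 0, 0⟩, ⟨1, 0, -1⟩,
      ⟨0, 0, 1⟩],
    [⟨0, 0, 1⟩, ⟨1, 0, 0⟩, ⟨1, 0, 0⟩, ⟨0, 0, 1⟩, ⟨0, 0, 0⟩, ⟨0, 0, 0⟩,
      ⟨0, 0, 1⟩],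
    [⟨-1, 0, 0⟩, ⟨-1, 0, 0⟩, ⟨-1, 0, 0⟩, ⟨-1, 0, 0⟩, ⟨-1, 0, 0⟩]] : List (List Z3)).getD a []).getD b ⟨0, 0, 0⟩

/-- the polygon `Q` -/
def ZQ : ZP := ⟨12, tabQ, by norm_num⟩

/-- separating functionals -/
def sepQ (a b : ℕ) : Z3 :=
  (([[⟨0, 0, 0⟩, ⟨0, 0, 0⟩, ⟨2, -4, 1⟩, ⟨-4, 2, -5⟩, ⟨0, 1, 1⟩, ⟨-1, 6, 4⟩,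
      ⟨-1, 0, -1⟩, ⟨0, 0, -1⟩, ⟨-1, 0, 0⟩, ⟨-1, 0, 0⟩, ⟨-1, 0, 0⟩],
    [⟨0, 0, 0⟩, ⟨0, 0, 0⟩, ⟨0, 0, 0⟩, ⟨0, 0, -1⟩, ⟨1, 0, -1⟩, ⟨1, 0, -2⟩,
      ⟨0, 0, -1⟩, ⟨0, 0, -1⟩, ⟨-1, 0, 0⟩, ⟨-1, 0, 0⟩, ⟨-1, 0, 0⟩, ⟨0, 0, -1⟩],
    [⟨0, 0, 0⟩, ⟨0, 0, 0⟩, ⟨0, 0, 0⟩, ⟨0, 0, 0⟩, ⟨2, 0, -1⟩, ⟨-2, -3, 3⟩,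
      ⟨-1, 0, 0⟩, ⟨-1, 0, 0⟩, ⟨-1, 0, 0⟩, ⟨-1, 0, 0⟩, ⟨-1, 0, 0⟩, ⟨0, 0, -1⟩],
    [⟨0, 0, 0⟩, ⟨0, 0, 0⟩, ⟨0, 0, 0⟩, ⟨0, 0, 0⟩, ⟨0, 0, 0⟩, ⟨-1, 0, 2⟩,
      ⟨-1, 0, 0⟩, ⟨-1, 0, 0⟩, ⟨-1, 0, 0⟩, ⟨-1, 0, 0⟩, ⟨-1, 0, 0⟩, ⟨0, 0, -1⟩],
    [⟨0, 0, 0⟩, ⟨0, 0, 0⟩, ⟨0, 0, 0⟩, ⟨0, 0, 0⟩, ⟨0, 0, 0⟩, ⟨0, 0, 0⟩,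
      ⟨-1, 0, 0⟩, ⟨-1, 0, 0⟩, ⟨-1, 0, 0⟩, ⟨-1, 0, 0⟩, ⟨-1, 0, 0⟩, ⟨0, 0, -1⟩],
    [⟨0, 0, 0⟩, ⟨0, 0, 0⟩, ⟨0, 0, 0⟩, ⟨0, 0, 0⟩, ⟨0, 0, 0⟩, ⟨0, 0, 0⟩,
      ⟨0, 0, 0⟩, ⟨0, 0, -1⟩, ⟨0, 0, -1⟩, ⟨0, 0, -1⟩, ⟨0, 0, -1⟩, ⟨1, 0, -2⟩],
    [⟨0, 0, 0⟩, ⟨0, 0, 0⟩, ⟨0, 0, 0⟩, ⟨0, 0, 0⟩, ⟨0, 0, 0⟩, ⟨0, 0, 0⟩,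
      ⟨0, 0, 0⟩, ⟨0, 0, 0⟩, ⟨-2, -4, -1⟩, ⟨4, 2, 5⟩, ⟨0, 1, -1⟩, ⟨1, 6, -4⟩],
    [⟨0, 0, 0⟩, ⟨0, 0, 0⟩, ⟨0, 0, 0⟩, ⟨0, 0, 0⟩, ⟨0, 0, 0⟩, ⟨0, 0, 0⟩,
      ⟨0, 0, 0⟩, ⟨0, 0, 0⟩, ⟨0, 0, 0⟩, ⟨0, 0, 1⟩, ⟨-1, 0, 1⟩, ⟨-1, 0, 2⟩],
    [⟨0, 0, 0⟩, ⟨0, 0, 0⟩, ⟨0, 0, 0⟩, ⟨0, 0, 0⟩, ⟨0, 0, 0⟩, ⟨0, 0, 0⟩,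
      ⟨0, 0, 0⟩, ⟨0, 0, 0⟩, ⟨0, 0, 0⟩, ⟨0, 0, 0⟩, ⟨-2, 0, 1⟩, ⟨2, -3, -3⟩],
    [⟨0, 0, 0⟩, ⟨0, 0, 0⟩, ⟨0, 0, 0⟩, ⟨0, 0, 0⟩, ⟨0, 0, 0⟩, ⟨0, 0, 0⟩,
      ⟨0, 0, 0⟩, ⟨0, 0, 0⟩, ⟨0, 0, 0⟩, ⟨0, 0, 0⟩, ⟨0, 0, 0⟩, ⟨1, 0, -2⟩],
    [],
    []] : List (List Z3)).getD a []).getD b ⟨0, 0, 0⟩

/-- functionals for the view -/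
def vaQ (a : ℕ) : Z3 :=
  ([⟨-1, 0, 0⟩, ⟨-1, 0, 0⟩, ⟨-1, 0, 0⟩, ⟨-1, 0, 0⟩, ⟨-1, 0, 0⟩,
    ⟨-1, 0, 0⟩, ⟨-1, 0, 0⟩, ⟨-1, 0, 0⟩, ⟨-1, 0, 0⟩, ⟨-1, 0, 0⟩,
    ⟨-1, 0, 0⟩, ⟨-1, 0, 0⟩] : List Z3).getD a ⟨0, 0, 0⟩

/-- functionals for the view -/
def vbQ (a b : ℕ) : Z3 :=
  (([[⟨0, 0, 0⟩, ⟨-1, 0, 0⟩, ⟨-1, 0, 0⟩, ⟨-1, 0, 0⟩, ⟨0, 0, 1⟩, ⟨-1, 0, 1⟩,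
      ⟨-1, 0, 0⟩, ⟨-1, 0, 0⟩, ⟨-1, 0, 0⟩, ⟨-1, 0, 0⟩, ⟨-1, 0, 0⟩],
    [⟨0, 0, 0⟩, ⟨0, 0, 0⟩, ⟨1, 0, 0⟩, ⟨0, 0, -1⟩, ⟨1, 0, 0⟩, ⟨1, 0, -2⟩,
      ⟨0, 0, -1⟩, ⟨0, 0, -1⟩, ⟨-1, 0, 0⟩, ⟨-1, 0, 0⟩, ⟨-1, 0, 0⟩, ⟨0, 0, -1⟩],
    [⟨0, 0, -1⟩, ⟨0, 0, 0⟩, ⟨0, 0, 0⟩, ⟨0, 0, -1⟩, ⟨1, 0, -1⟩, ⟨1, 0, -2⟩,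
      ⟨-1, 0, 0⟩, ⟨-1, 0, 0⟩, ⟨-1, 0, 0⟩, ⟨-1, 0, 0⟩, ⟨-1, 0, 0⟩, ⟨0, 0, -1⟩],
    [⟨2, 0, 3⟩, ⟨0, 0, 1⟩, ⟨0, 0, 0⟩, ⟨0, 0, 0⟩, ⟨1, 0, 0⟩, ⟨-1, 0, 2⟩,
      ⟨-1, 0, 0⟩, ⟨-1, 0, 0⟩, ⟨-1, 0, 0⟩, ⟨-1, 0, 0⟩, ⟨-1, 0, 0⟩, ⟨0, 0, -1⟩],
    [⟨-2, 0, -3⟩, ⟨0, 0, 1⟩, ⟨-1, 0, 1⟩, ⟨0, 0, 0⟩, ⟨0, 0, 0⟩, ⟨-1, 0, 1⟩,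
      ⟨-1, 0, 0⟩, ⟨-1, 0, 0⟩, ⟨-1, 0, 0⟩, ⟨-1, 0, 0⟩, ⟨-1, 0, 0⟩, ⟨0, 0, -1⟩],
    [⟨0, 0, -1⟩, ⟨-1, 0, 0⟩, ⟨-1, 0, 0⟩, ⟨-1, 0, 0⟩, ⟨0, 0, 0⟩, ⟨0, 0, 0⟩,
      ⟨-1, 0, 0⟩, ⟨-1, 0, 0⟩, ⟨-1, 0, 0⟩, ⟨-1, 0, 0⟩, ⟨-1, 0, 0⟩, ⟨0, 0, -1⟩],
    [⟨1, 0, 0⟩, ⟨0, 0, 1⟩, ⟨0, 0, 1⟩, ⟨0, 0, 1⟩, ⟨0, 0, 1⟩, ⟨0, 0, 0⟩,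
      ⟨0, 0, 0⟩, ⟨0, 0, -1⟩, ⟨0, 0, -1⟩, ⟨0, 0, -1⟩, ⟨0, 0, -1⟩, ⟨1, 0, -1⟩],
    [⟨0, 0, 1⟩, ⟨0, 0, 1⟩, ⟨0, 0, 1⟩, ⟨0, 0, 1⟩, ⟨0, 0, 1⟩, ⟨0, 0, 1⟩,
      ⟨0, 0, 0⟩, ⟨0, 0, 0⟩, ⟨-1, 0, 0⟩, ⟨-1, 0, 0⟩, ⟨-1, 0, 0⟩, ⟨-1, 0, 2⟩],
    [⟨0, 0, 1⟩, ⟨0, 0, 1⟩, ⟨0, 0, 1⟩, ⟨0, 0, 1⟩, ⟨0, 0, 1⟩, ⟨0, 0, 1⟩,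
      ⟨0, 0, 1⟩, ⟨0, 0, 0⟩, ⟨0, 0, 0⟩, ⟨0, 0, 1⟩, ⟨-1, 0, 1⟩, ⟨-1, 0, 2⟩],
    [⟨0, 0, 1⟩, ⟨0, 0, 1⟩, ⟨0, 0, 1⟩, ⟨0, 0, 1⟩, ⟨0, 0, 1⟩, ⟨0, 0, 1⟩,
      ⟨-2, 0, -3⟩, ⟨0, 0, -1⟩, ⟨0, 0, 0⟩, ⟨0, 0, 0⟩, ⟨-1, 0, 0⟩, ⟨1, 0, -2⟩],
    [⟨0, 0, 1⟩, ⟨0, 0, 1⟩, ⟨0, 0, 1⟩, ⟨0, 0, 1⟩, ⟨0, 0, 1⟩, ⟨0, 0, 1⟩,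
      ⟨2, 0, 3⟩, ⟨0, 0, -1⟩, ⟨1, 0, -1⟩, ⟨0, 0, 0⟩, ⟨0, 0, 0⟩, ⟨1, 0, -1⟩],
    [⟨0, 0, 1⟩, ⟨0, 0, 1⟩, ⟨0, 0, 1⟩, ⟨0, 0, 1⟩, ⟨0, 0, 1⟩, ⟨0, 0, 1⟩,
      ⟨0, 0, 1⟩, ⟨1, 0, 0⟩, ⟨1, 0, 0⟩, ⟨0, 0, 1⟩]] : List (List Z3)).getD a []).getD b ⟨0, 0, 0⟩

/-- the view -/
def ez : Z3 := ⟨0, 1, 0⟩

theorem goodK : ZK.Good sepK where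
  three := by decide
  corner := by decide +kernel
  disj := by decide +kernel

theorem viewK : ZK.GoodView ez vaK vbK where
  e0 := by decide
  v1 := by decide +kernel
  v2 := by decide +kernel
  v3 := by decide +kernel

theorem goodL : ZL.Good sepL where
  three := by decide
  corner := by decide +kernel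
  disj := by decide +kernel

theorem viewL : ZL.GoodView ez vaL vbL where
  e0 := by decide
  v1 := by decide +kernel
  v2 := by decide +kernel
  v3 := by decide +kernel

theorem goodQ : ZQ.Good sepQ where
  three := by decide
  corner := by decide +kernel
  disj := by decide +kernel

theorem viewQ : ZQ.GoodView ez vaQ vbQ where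
  e0 := by decide
  v1 := by decide +kernel
  v2 := by decide +kernel
  v3 := by decide +kernel

end Pool.Agent.helper82.SBK
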