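import Pool.Agent.helper82.SBA.Space
import Pool.Agent.helper81.SBX.QDefs
import Pool.Agent.helper82.SBK.Colour
import Pool.Agent.helper82.SBK.Knots

set_option autoImplicit false
set_option maxRecDepth 100000

/-!
# The colouring of the connected sum of two figure-eight knots by integral roots
-/

namespace Pool.Agent.helper82.SBK

open Pool.Agent.helper82.SBA Pool.Agent.helper81.SBX Pool.Agent.helper43.SBI

/-- The lattice `O³` with the twist `g`. -/
noncomputable def Lt8 : Lat Hm (tt : D) where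
  O := O
  L := Lam
  g := gg
  t_mem := tt_mem_O
  star_mem := star_mem_O
  smul_mem := smul_mem_Lam
  herm_mem := fun x hx y hy => Hm_mem_O x y hx hy
  g_mem := gg_mem_O
  g_unit := gg_unit

/-- Integral vectors. -/
abbrev VZ := Fin 3 → HQ (Eis ℤ)

/-- The colours of the nine arcs (between the undercrossings, starting at the first vertex). -/
def arcs (i : ℕ) : VZ :=
  ([![⟨⟨1, 0⟩, ⟨0, 0⟩, ⟨0, 0⟩, ⟨0, 0⟩⟩, 0, 0],
    ![⟨⟨1, 0⟩, ⟨0, 1⟩, ⟨0, 0⟩, ⟨0, 0⟩⟩, ⟨⟨0, 1⟩, ⟨-1, 0⟩, ⟨0, 0⟩, ⟨0, 0⟩⟩, 0],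
    ![⟨⟨0, -1⟩, ⟨1, 1⟩, ⟨0, 0⟩, ⟨0, 0⟩⟩, ⟨⟨0, 1⟩, ⟨-1, 0⟩, ⟨0, 0⟩, ⟨0, 0⟩⟩, 0],
    ![⟨⟨0, 1⟩, ⟨-1, 0⟩, ⟨0, 0⟩, ⟨0, 0⟩⟩, ⟨⟨-2, 0⟩, ⟨-1, -2⟩, ⟨0, 0⟩, ⟨0, 0⟩⟩, 0],
    ![⟨⟨-2, 0⟩, ⟨-1, -2⟩, ⟨0, 0⟩, ⟨0, 0⟩⟩, 0, 0],
    ![⟨⟨-2, 0⟩, ⟨-1, -2⟩, ⟨0, -2⟩, ⟨2, 1⟩⟩, 0, ⟨⟨0, -2⟩, ⟨2, 1⟩, ⟨2, 0⟩, ⟨1, 2⟩⟩],
    ![⟨⟨0, 2⟩, ⟨-2, -1⟩, ⟨-2, -2⟩, ⟨1, -1⟩⟩, 0, ⟨⟨0, -2⟩, ⟨2, 1⟩, ⟨2, 0⟩, ⟨1, 2⟩⟩],
    ![⟨⟨0, -2⟩, ⟨2, 1⟩, ⟨2, 0⟩, ⟨1, 2⟩⟩, 0, ⟨⟨4, 0⟩, ⟨2, 4⟩, ⟨2, 4⟩, ⟨-3, 0⟩⟩],
    ![⟨⟨4, 0⟩, ⟨2, 4⟩, ⟨2, 4⟩, ⟨-3, 0⟩⟩, 0, 0]] : List VZ).getD i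
    ![⟨⟨1, 0⟩, ⟨0, 0⟩, ⟨0, 0⟩, ⟨0, 0⟩⟩, 0, 0]

/-- The arc of the edge `a` after `k` undercrossings. -/
def tbi (a k : ℕ) : ℕ :=
  (([[0, 1, 2], [2], [2, 3], [3], [3], [3, 4], [4, 5, 6], [6], [6, 7], [7], [7], [7, 8]] :
    List (List ℕ)).getD a []).getD k 0

theorem arcs_norm (i : ℕ) : hmZ (arcs i) (arcs i) = 1 := by
  have h : ∀ i < 9, hmZ (arcs i) (arcs i) = 1 := by decide +kernel
  rcases Nat.lt_or_ge i 9 with hi | hi
  · exact h i hi
  · have : arcs i = arcs 0 := by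
      unfold arcs
      rw [List.getD_eq_default _ _ (by simpa using hi)]
      rfl
    rw [this]
    exact h 0 (by norm_num)

/-- The integral reflection. -/
def reflZ (X : VZ) (s : HQ (Eis ℤ)) (v : VZ) : VZ := fun i => v i + (s - 1) * hmZ v X * X i

theorem embV_reflZ (X : VZ) (s : HQ (Eis ℤ)) (v : VZ) :
    embV (reflZ X s v) = Hm.refl (embV X) (emb s) (embV v) := by
  funext i
  change emb (v i + (s - 1) * hmZ v X * X i) = _
  rw [map_add, map_mul, map_mul, map_sub, map_one, ← Hm_embV]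
  rfl

/-- The root of an arc. -/
noncomputable def arcRoot (i : ℕ) : Root Lt8 :=
  ⟨embV (arcs i), embV_mem_Lam _, by rw [Hm_embV, arcs_norm, map_one]⟩

/-- The class of a root. -/
noncomputable def cls (X : Root Lt8) : RY six_tt Lt8 := Quotient.mk (rootSetoid six_tt Lt8) X

/-- The table of colours. -/
noncomputable def tbR (a k : ℕ) : RY six_tt Lt8 := cls (arcRoot (tbi a k))

theorem emb_star_tt : emb (star tt) = star (tt : D) := by rw [emb_star, emb_tt]

theorem cls_ext {X Y : Root Lt8} (h : X.1 = Y.1) : cls X = cls Y :=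
  congrArg cls (Subtype.ext h)

theorem act_cls (A : isoG Lt8) (X : Root Lt8) : A • cls X = cls (actRoot Lt8 A X) := rfl

theorem del_cls (X : Root Lt8) : (rootAQ six_tt Lt8).del (cls X) = reflG six_tt Lt8 X := rfl

theorem reflG_val (X : Root Lt8) (v : V) :
    (reflG six_tt Lt8 X).1 v = Hm.refl X.1 tt v := rfl

theorem reflG_inv_val (X : Root Lt8) (v : V) :
    ((reflG six_tt Lt8 X)⁻¹).1 v = Hm.refl X.1 (star tt) v := rfl

theorem refl_one (x y z : ℕ) (h : arcs z = reflZ (arcs x) tt (arcs y)) :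
    cls (arcRoot z) = (rootAQ six_tt Lt8).del (cls (arcRoot x)) • cls (arcRoot y) := by
  rw [del_cls, act_cls]
  apply cls_ext
  have h1 : (actRoot Lt8 (reflG six_tt Lt8 (arcRoot x)) (arcRoot y)).1 =
      (reflG six_tt Lt8 (arcRoot x)).1 (arcRoot y).1 := rfl
  rw [h1, reflG_val]
  have h2 : ∀ i, (arcRoot i).1 = embV (arcs i) := fun _ => rfl
  rw [h2, h2, h2, h, embV_reflZ, emb_tt]

theorem refl_inv (x y z : ℕ) (h : arcs z = reflZ (arcs x) (star tt) (arcs y)) :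
    cls (arcRoot z) = ((rootAQ six_tt Lt8).del (cls (arcRoot x)))⁻¹ • cls (arcRoot y) := by
  rw [del_cls, act_cls]
  apply cls_ext
  have h1 : (actRoot Lt8 (reflG six_tt Lt8 (arcRoot x))⁻¹ (arcRoot y)).1 =
      ((reflG six_tt Lt8 (arcRoot x))⁻¹).1 (arcRoot y).1 := rfl
  rw [h1, reflG_inv_val]
  have h2 : ∀ i, (arcRoot i).1 = embV (arcs i) := fun _ => rfl
  rw [h2, h2, h2, h, embV_reflZ, emb_star_tt]

/-- The relation at the crossing of `a` (under) with `b` (over). -/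
def CrsOK (a b : ℕ) : Prop :=
  arcs (tbi a (ZQ.cntZ ez a b + 1)) = reflZ (arcs (tbi b (ZQ.cntZ ez b a)))
    (if 0 < ZQ.dd ez a b then tt else star tt) (arcs (tbi a (ZQ.cntZ ez a b)))

instance (a b : ℕ) : Decidable (CrsOK a b) := by unfold CrsOK; infer_instance

theorem tcolR : TCol (rootAQ six_tt Lt8) ZQ ez tbR where
  vtx a ha := by
    have h : ∀ a < 12, a + 1 < ZQ.n → tbi (a + 1) 0 = tbi a (ZQ.totZ ez a) := by decide +kernel
    unfold tbR
    rw [h a (by have : ZQ.n = 12 := rfl; omega) ha]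
  vtx' := by
    have h : tbi (ZQ.n - 1) (ZQ.totZ ez (ZQ.n - 1)) = 8 := by decide +kernel
    have h0 : tbi 0 0 = 0 := by decide
    unfold tbR
    rw [h, h0]
    change cls (twist Lt8 (arcRoot 0)) = _
    congr 1
    apply Subtype.ext
    change (gg : D) • embV (arcs 0) = embV (arcs 8)
    funext i
    change (gg : D) * emb (arcs 0 i) = emb (arcs 8 i)
    rw [← emb_gg, ← map_mul]
    congr 1
    revert i
    decide +kernel
  crs a ha b hb hab := by
    have key : ∀ a < ZQ.n, ∀ b < ZQ.n, ZQ.U ez a b → CrsOK a b := by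
      decide +kernel
    have h := key a ha b hb hab
    unfold CrsOK at h
    unfold tbR
    by_cases hd : 0 < ZQ.dd ez a b
    · rw [if_pos hd] at h ⊢
      rw [zpow_one]
      exact refl_one _ _ _ h
    · rw [if_neg hd] at h ⊢
      rw [zpow_neg_one]
      exact refl_inv _ _ _ h

theorem star_gg_unit : star (gg : D) * gg = 1 := mul_eq_one_comm.mp gg_unit

/-- Multiplication by the inverse of the twist. -/
noncomputable def twistInv (X : Root Lt8) : Root Lt8 :=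
  ⟨star (gg : D) • X.1, smul_mem_Lam _ (star_mem_O _ gg_mem_O) _ X.2.1, by
    have h2 : Hm.H (star (gg : D) • X.1) (star (gg : D) • X.1) =
        star (gg : D) * (Hm.H X.1 X.1 * star (star (gg : D))) := by
      rw [Hm.smul_left]
      congr 1
      rw [← Hm.herm, Hm.smul_left, star_mul, Hm.herm]
    rw [h2, X.2.2, one_mul, star_star, star_gg_unit]⟩

/-- The twist as a permutation. -/
noncomputable def tauP : Equiv.Perm (RY six_tt Lt8) where
  toFun := (rootAQ six_tt Lt8).tau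
  invFun := Quotient.map' (s₁ := rootSetoid six_tt Lt8) (s₂ := rootSetoid six_tt Lt8) twistInv (by
    rintro X Y ⟨m, hm, h⟩
    refine ⟨m, hm, ?_⟩
    change star (gg : D) • Y.1 = m • star (gg : D) • X.1
    rw [h, smul_smul, smul_smul, mu_central six_tt hm])
  left_inv := by
    rintro ⟨X⟩
    change cls (twistInv (twist Lt8 X)) = cls X
    congr 1
    apply Subtype.ext
    change star (gg : D) • (gg : D) • X.1 = X.1
    rw [smul_smul, star_gg_unit, one_smul]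
  right_inv := by
    rintro ⟨X⟩
    change cls (twist Lt8 (twistInv X)) = cls X
    congr 1
    apply Subtype.ext
    change (gg : D) • star (gg : D) • X.1 = X.1
    rw [smul_smul, gg_unit, one_smul]

/-- The colouring of `Q`. -/
noncomputable def T8 : ℤ → ℕ → RY six_tt Lt8 := tcol ZQ tauP tbR

theorem view8 : View Q8 ez.cv := viewQ.view ZQ Q8 rfl rfl

theorem coloring8 : IsColoring (rootAQ six_tt Lt8) Q8 ez.cv T8 :=
  tcolR.isColoring (rootAQ six_tt Lt8) tauP (fun _ => rfl) Q8 rfl rfl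

theorem mem_of_class (W : Submodule D V) (i : ℕ)
    (h : cls (arcRoot i) ∈ {y | ∃ X : Root Lt8, X.1 ∈ W ∧ y = cls X}) :
    embV (arcs i) ∈ W := by
  obtain ⟨X, hX, hy⟩ := h
  obtain ⟨m, hm, hmX⟩ := Quotient.exact hy.symm
  change embV (arcs i) = m • X.1 at hmX
  rw [hmX]
  exact W.smul_mem _ hX

theorem unit_of_ne {x : HQ (Eis ℤ)} (hx : x ≠ 0) : emb x ≠ 0 := fun h =>
  hx (emb_injective (by rw [h, map_zero]))

theorem span_top (W : Submodule D V) (h0 : embV (arcs 0) ∈ W) (h1 : embV (arcs 1) ∈ W)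
    (h5 : embV (arcs 5) ∈ W) : W = ⊤ := by
  have e0 : (Pi.single 0 1 : V) ∈ W := by
    have : (Pi.single 0 1 : V) = embV (arcs 0) := by
      funext i
      change _ = emb (arcs 0 i)
      fin_cases i
      · exact (map_one emb).symm
      · exact (map_zero emb).symm
      · exact (map_zero emb).symm
    rw [this]; exact h0
  have mk : ∀ (j : Fin 3) (x y : HQ (Eis ℤ)), y ≠ 0 → j ≠ 0 →
      (fun i => emb (if i = 0 then x else if i = j then y else 0) : V) ∈ W →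
      (Pi.single j 1 : V) ∈ W := by
    intro j x y hy hj hW
    have hy' := unit_of_ne hy
    have h2 := W.smul_mem (emb y)⁻¹ (W.sub_mem hW (W.smul_mem (emb x) e0))
    have : (Pi.single j 1 : V) = (emb y)⁻¹ • ((fun i => emb (if i = 0 then x else
        if i = j then y else 0) : V) - emb x • (Pi.single 0 1 : V)) := by
      funext i
      simp only [Pi.smul_apply, Pi.sub_apply, smul_eq_mul]
      by_cases hi0 : i = 0
      · subst hi0
        rw [if_pos rfl, Pi.single_eq_same, mul_one, sub_self, mul_zero,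
          Pi.single_eq_of_ne (Ne.symm hj)]
      · have hz : (Pi.single 0 1 : V) i = 0 := Pi.single_eq_of_ne hi0 _
        rw [if_neg hi0, hz, mul_zero, sub_zero]
        by_cases hij : i = j
        · subst hij
          rw [if_pos rfl, Pi.single_eq_same, inv_mul_cancel₀ hy']
        · rw [if_neg hij, map_zero, mul_zero, Pi.single_eq_of_ne hij]
    rw [this]
    exact h2
  have e1 : (Pi.single 1 1 : V) ∈ W := by
    apply mk 1 (arcs 1 0) (arcs 1 1) (by decide +kernel) (by decide)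
    have : (fun i => emb (if i = 0 then arcs 1 0 else if i = 1 then arcs 1 1 else 0) : V) =
        embV (arcs 1) := by
      funext i
      change _ = emb (arcs 1 i)
      congr 1
      revert i
      decide +kernel
    rw [this]; exact h1
  have e2 : (Pi.single 2 1 : V) ∈ W := by
    apply mk 2 (arcs 5 0) (arcs 5 2) (by decide +kernel) (by decide)
    have : (fun i => emb (if i = 0 then arcs 5 0 else if i = 2 then arcs 5 2 else 0) : V) =
        embV (arcs 5) := by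
      funext i
      change _ = emb (arcs 5 i)
      congr 1
      revert i
      decide +kernel
    rw [this]; exact h5
  rw [eq_top_iff]
  intro v _
  have : v = v 0 • (Pi.single 0 1 : V) + v 1 • (Pi.single 1 1 : V) +
      v 2 • (Pi.single 2 1 : V) := by
    funext i
    fin_cases i <;> simp
  rw [this]
  exact W.add_mem (W.add_mem (W.smul_mem _ e0) (W.smul_mem _ e1)) (W.smul_mem _ e2)

theorem full8 : Full (rootFam six_tt Lt8) Q8 ez.cv T8 := by
  rintro A ⟨W, hW, rfl⟩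
  by_contra hcon
  push Not at hcon
  apply hW
  have hcol : ∀ (a k : ℕ), a < ZQ.n → T8 a k = tbR a k := by
    intro a k ha
    change tcol ZQ tauP tbR a k = _
    unfold tcol
    rw [ZQ.rs_natCast ha, Int.ediv_eq_zero_of_lt (by omega) (by exact_mod_cast ha), zpow_zero]
    rfl
  have hmem : ∀ (a k : ℕ), a < ZQ.n → k ≤ ZQ.totZ ez a → embV (arcs (tbi a k)) ∈ W := by
    intro a k ha hk
    apply mem_of_class
    have h1 := hcon a k (by rw [ZQ.tot_eq ez Q8 rfl rfl, ZQ.rs_natCast ha]; exact hk)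
    rw [hcol a k ha] at h1
    exact h1
  apply span_top W
  · exact hmem 0 0 (by decide) (Nat.zero_le _)
  · exact hmem 0 1 (by decide) (by decide +kernel)
  · exact hmem 6 1 (by decide) (by decide +kernel)

end Pool.Agent.helper82.SBK
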