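import Pool.Agent.helper43.SBI.Defs

set_option autoImplicit false

/-!
# Polygonal knots with integral vertices: decidable checks
-/

namespace Pool.Agent.helper82.SBK

open Pool.Agent.helper82.SB Pool.Agent.helper43.SBI Matrix

/-- Integral vectors. -/
@[ext] structure Z3 where
  /-- first coordinate -/
  x : ℤ
  /-- second coordinate -/
  y : ℤ
  /-- third coordinate -/
  z : ℤ
  deriving DecidableEq

namespace Z3

/-- difference -/
def sub (a b : Z3) : Z3 := ⟨a.x - b.x, a.y - b.y, a.z - b.z⟩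

/-- scalar product -/
def dot (a b : Z3) : ℤ := a.x * b.x + a.y * b.y + a.z * b.z

/-- determinant -/
def det (a b c : Z3) : ℤ :=
  a.x * (b.y * c.z - b.z * c.y) - a.y * (b.x * c.z - b.z * c.x) + a.z * (b.x * c.y - b.y * c.x)

/-- the real vector -/
def cv (a : Z3) : E3 := ![(a.x : ℝ), (a.y : ℝ), (a.z : ℝ)]

theorem cv_sub (a b : Z3) : cv (sub a b) = cv a - cv b := by
  funext k
  fin_cases k <;> simp [cv, sub]

theorem dot_cv (a b : Z3) : cv a ⬝ᵥ cv b = (dot a b : ℝ) := by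
  simp [dotProduct, Fin.sum_univ_three, cv, dot]

theorem det_cv (a b c : Z3) : det3 (cv a) (cv b) (cv c) = (det a b c : ℝ) := by
  simp [det3, cv, det]

end Z3

/-- A closed polygon with integral vertices. -/
structure ZP where
  /-- number of vertices -/
  n : ℕ
  /-- vertices -/
  tab : ℕ → Z3
  pos : 0 < n

namespace ZP

variable (Z : ZP)

/-- residue -/
def rs (i : ℤ) : ℕ := (i % Z.n).toNat

/-- the vertices as a periodic function -/
def P (i : ℤ) : E3 := (Z.tab (Z.rs i)).cv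

/-- next index -/
def nx (a : ℕ) : ℕ := (a + 1) % Z.n

/-- previous index -/
def pv (a : ℕ) : ℕ := (a + Z.n - 1) % Z.n

/-- edge vector -/
def ed (a : ℕ) : Z3 := (Z.tab (Z.nx a)).sub (Z.tab a)

theorem rs_cast (i : ℤ) : (Z.rs i : ℤ) = i % Z.n :=
  Int.toNat_of_nonneg (Int.emod_nonneg _ (by have := Z.pos; omega))

theorem rs_lt (i : ℤ) : Z.rs i < Z.n := by
  have h := Z.rs_cast i
  have h2 := Int.emod_lt_of_pos i (show (0 : ℤ) < Z.n by have := Z.pos; omega)
  omega

theorem rs_add (i : ℤ) : Z.rs (i + Z.n) = Z.rs i := by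
  unfold rs
  rw [Int.add_emod_right]

theorem rs_eq_iff (i j : ℤ) : Z.rs i = Z.rs j ↔ (Z.n : ℤ) ∣ i - j := by
  have hi := Z.rs_cast i
  have hj := Z.rs_cast j
  rw [← Int.emod_eq_emod_iff_emod_sub_eq_zero.trans (Int.dvd_iff_emod_eq_zero).symm]
  constructor
  · intro h; rw [← hi, ← hj, h]
  · intro h; rw [← hi, ← hj] at h; exact_mod_cast h

theorem rs_natCast {a : ℕ} (h : a < Z.n) : Z.rs a = a := by
  have := Z.rs_cast a
  rw [Int.emod_eq_of_lt (by omega) (by omega)] at this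
  exact_mod_cast this

theorem rs_add_one (i : ℤ) : Z.rs (i + 1) = Z.nx (Z.rs i) := by
  have h1 := Z.rs_cast i
  have h2 := Z.rs_cast (i + 1)
  have : ((Z.nx (Z.rs i) : ℕ) : ℤ) = (i + 1) % Z.n := by
    unfold nx
    push_cast
    rw [h1, Int.emod_add_emod]
  rw [← this] at h2
  exact_mod_cast h2

theorem rs_sub_one (i : ℤ) : Z.rs (i - 1) = Z.pv (Z.rs i) := by
  have h1 := Z.rs_cast i
  have h2 := Z.rs_cast (i - 1)
  have hp := Z.pos
  have : ((Z.pv (Z.rs i) : ℕ) : ℤ) = (i - 1) % Z.n := by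
    unfold pv
    rw [show Z.rs i + Z.n - 1 = Z.rs i + (Z.n - 1) by omega]
    push_cast [Nat.cast_sub (show 1 ≤ Z.n by omega)]
    rw [h1, Int.emod_add_emod, show i + ((Z.n : ℤ) - 1) = i - 1 + Z.n by ring,
      Int.add_emod_right]
  rw [← this] at h2
  exact_mod_cast h2

theorem P_per (i : ℤ) : Z.P (i + Z.n) = Z.P i := by
  unfold P
  rw [rs_add]

theorem edge_P (i : ℤ) : edge Z.P i = (Z.ed (Z.rs i)).cv := by
  unfold edge P ed
  rw [rs_add_one, Z3.cv_sub]

/-- strict separation by a linear functional -/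
def SepOK (w a a' b b' : Z3) : Prop :=
  w.dot a < w.dot b ∧ w.dot a < w.dot b' ∧ w.dot a' < w.dot b ∧ w.dot a' < w.dot b'

instance (w a a' b b' : Z3) : Decidable (SepOK w a a' b b') := by
  unfold SepOK; infer_instance

theorem SepOK.disjoint {w a a' b b' : Z3} (h : SepOK w a a' b b') :
    Disjoint (segment ℝ a.cv a'.cv) (segment ℝ b.cv b'.cv) := by
  rw [Set.disjoint_left]
  rintro x ⟨s, t, hs, ht, hst, rfl⟩ ⟨s', t', hs', ht', hst', hx⟩
  have h1 := congrArg (fun v => w.cv ⬝ᵥ v) hx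
  simp only [dotProduct_add, dotProduct_smul, Z3.dot_cv, smul_eq_mul] at h1
  obtain ⟨q1, q2, q3, q4⟩ := h
  have r1 : (w.dot a : ℝ) < w.dot b := by exact_mod_cast q1
  have r2 : (w.dot a : ℝ) < w.dot b' := by exact_mod_cast q2
  have r3 : (w.dot a' : ℝ) < w.dot b := by exact_mod_cast q3
  have r4 : (w.dot a' : ℝ) < w.dot b' := by exact_mod_cast q4
  have hm : max (w.dot a : ℝ) (w.dot a') < min (w.dot b : ℝ) (w.dot b') :=
    max_lt (lt_min r1 r2) (lt_min r3 r4)
  set M := max (w.dot a : ℝ) (w.dot a')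
  set m := min (w.dot b : ℝ) (w.dot b')
  have k1 : (w.dot a : ℝ) ≤ M := le_max_left _ _
  have k2 : (w.dot a' : ℝ) ≤ M := le_max_right _ _
  have k3 : m ≤ (w.dot b : ℝ) := min_le_left _ _
  have k4 : m ≤ (w.dot b' : ℝ) := min_le_right _ _
  have u1 : s * (w.dot a : ℝ) + t * (w.dot a' : ℝ) ≤ M := by
    calc s * (w.dot a : ℝ) + t * (w.dot a' : ℝ) ≤ s * M + t * M :=
          add_le_add (mul_le_mul_of_nonneg_left k1 hs) (mul_le_mul_of_nonneg_left k2 ht)
      _ = M := by rw [← add_mul, hst, one_mul]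
  have u2 : m ≤ s' * (w.dot b : ℝ) + t' * (w.dot b' : ℝ) := by
    calc m = s' * m + t' * m := by rw [← add_mul, hst', one_mul]
      _ ≤ s' * (w.dot b : ℝ) + t' * (w.dot b' : ℝ) :=
          add_le_add (mul_le_mul_of_nonneg_left k3 hs') (mul_le_mul_of_nonneg_left k4 ht')
  linarith

/-- two vectors are not parallel -/
def NPar (u v : Z3) : Prop :=
  u.x * v.y ≠ u.y * v.x ∨ u.x * v.z ≠ u.z * v.x ∨ u.y * v.z ≠ u.z * v.y

instance (u v : Z3) : Decidable (NPar u v) := by unfold NPar; infer_instance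

theorem NPar.not_sameRay {u v : Z3} (h : NPar u v) : ¬ SameRay ℝ u.cv v.cv := by
  intro hs
  have key : ∀ a b : Fin 3, u.cv a * v.cv b = u.cv b * v.cv a := by
    intro a b
    rcases hs with h0 | h0 | ⟨r, s, hr, hs, hrs⟩
    · simp [h0]
    · simp [h0]
    · have ha := congrFun hrs a
      have hb := congrFun hrs b
      simp only [Pi.smul_apply, smul_eq_mul] at ha hb
      have : (r * s) * (u.cv a * v.cv b) = (r * s) * (u.cv b * v.cv a) := by
        calc (r * s) * (u.cv a * v.cv b) = (r * u.cv a) * (s * v.cv b) := by ring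
          _ = (r * s) * (u.cv b * v.cv a) := by rw [ha, ← hb]; ring
      exact mul_left_cancel₀ (by positivity) this
  rcases h with h | h | h
  · apply h
    have := key 0 1
    simp only [Z3.cv, Matrix.cons_val_zero, Matrix.cons_val_one] at this
    exact_mod_cast this
  · apply h
    have := key 0 2
    simp only [Z3.cv, Matrix.cons_val_zero, Matrix.cons_val] at this
    exact_mod_cast this
  · apply h
    have := key 1 2
    simp only [Z3.cv, Matrix.cons_val_one, Matrix.cons_val] at this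
    exact_mod_cast this

/-- The checks for a simple polygon. -/
structure Good (sep : ℕ → ℕ → Z3) : Prop where
  three : 3 ≤ Z.n
  corner : ∀ a < Z.n, NPar ((Z.tab (Z.pv a)).sub (Z.tab a)) ((Z.tab (Z.nx a)).sub (Z.tab a))
  disj : ∀ a < Z.n, ∀ b < Z.n, a < b → Z.nx a ≠ b → Z.nx b ≠ a →
    SepOK (sep a b) (Z.tab a) (Z.tab (Z.nx a)) (Z.tab b) (Z.tab (Z.nx b))

variable {Z}

/-- The polygonal knot. -/
def Good.knot {sep : ℕ → ℕ → Z3} (h : Z.Good sep) : PolyKnot where
  n := Z.n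
  P := Z.P
  three := h.three
  per := Z.P_per
  corner i := by
    unfold P
    rw [rs_sub_one, rs_add_one, ← Z3.cv_sub, ← Z3.cv_sub]
    exact (h.corner _ (Z.rs_lt i)).not_sameRay
  disj i j h1 h2 := by
    have hn : (3 : ℤ) ≤ Z.n := by exact_mod_cast h.three
    have ne : ∀ a b : ℤ, a < b → b < a + Z.n → Z.rs a ≠ Z.rs b := by
      intro a b hab hba he
      rw [rs_eq_iff] at he
      obtain ⟨k, hk⟩ := he
      have : a - b < 0 := by omega
      have h3 : -(Z.n : ℤ) < a - b := by omega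
      rw [hk] at this h3
      have hk0 : k < 0 := by
        by_contra hcon
        push Not at hcon
        nlinarith
      have hk1 : -1 < k := by
        by_contra hcon
        push Not at hcon
        nlinarith
      omega
    have hne := ne i j (by omega) (by omega)
    have hne1 : Z.nx (Z.rs i) ≠ Z.rs j := by
      rw [← rs_add_one]; exact ne _ _ (by omega) (by omega)
    have hne2 : Z.nx (Z.rs j) ≠ Z.rs i := by
      rw [← rs_add_one, ← rs_add Z i]; exact ne _ _ (by omega) (by omega)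
    unfold P
    rw [rs_add_one, rs_add_one]
    rcases lt_or_gt_of_ne hne with hlt | hgt
    · exact (h.disj _ (Z.rs_lt i) _ (Z.rs_lt j) hlt hne1 hne2).disjoint
    · exact (h.disj _ (Z.rs_lt j) _ (Z.rs_lt i) hgt hne2 hne1).disjoint.symm

variable (Z)

section View

variable (e : Z3)

/-- `det (e, E a, E b)` -/
def dd (a b : ℕ) : ℤ := e.det (Z.ed a) (Z.ed b)

/-- numerator of the position -/
def nu (a b : ℕ) : ℤ := ((Z.tab b).sub (Z.tab a)).det e (Z.ed b)

/-- denominator of the position -/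
def de (a b : ℕ) : ℤ := (Z.ed a).det e (Z.ed b)

/-- numerator of the height -/
def al (a b : ℕ) : ℤ := ((Z.tab b).sub (Z.tab a)).det (Z.ed a) (Z.ed b)

/-- `a` passes under `b` -/
def U (a b : ℕ) : Prop :=
  Z.dd e a b ≠ 0 ∧ (0 < Z.nu e a b * Z.de e a b ∧
    Z.nu e a b * Z.de e a b < Z.de e a b * Z.de e a b) ∧
    (0 < Z.nu e b a * Z.de e b a ∧ Z.nu e b a * Z.de e b a < Z.de e b a * Z.de e b a) ∧
    0 < Z.al a b * Z.dd e a b

instance (a b : ℕ) : Decidable (Z.U e a b) := by unfold U; infer_instance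

/-- the crossing of `a` with `b` is before the crossing of `a` with `c` -/
def Lt (a b c : ℕ) : Prop :=
  Z.nu e a b * Z.de e a b * (Z.de e a c * Z.de e a c) <
    Z.nu e a c * Z.de e a c * (Z.de e a b * Z.de e a b)

instance (a b c : ℕ) : Decidable (Z.Lt e a b c) := by unfold Lt; infer_instance

/-- number of undercrossings before the crossing with `b` -/
def cntZ (a b : ℕ) : ℕ := ((Finset.range Z.n).filter fun l => Z.U e a l ∧ Z.Lt e a l b).card

/-- number of undercrossings -/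
def totZ (a : ℕ) : ℕ := ((Finset.range Z.n).filter fun l => Z.U e a l).card

theorem xpos_eq (K : PolyKnot) (hP : K.P = Z.P) (i j : ℤ) :
    xpos K e.cv i j = (Z.nu e (Z.rs i) (Z.rs j) : ℝ) / (Z.de e (Z.rs i) (Z.rs j) : ℝ) := by
  unfold xpos nu de
  rw [hP, edge_P, edge_P, Z3.det_cv]
  unfold P
  rw [← Z3.cv_sub, Z3.det_cv]

theorem alt_eq (K : PolyKnot) (hP : K.P = Z.P) (i j : ℤ) :
    alt K e.cv i j = (Z.al (Z.rs i) (Z.rs j) : ℝ) / (Z.dd e (Z.rs i) (Z.rs j) : ℝ) := by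
  unfold alt al dd
  rw [hP, edge_P, edge_P, Z3.det_cv]
  unfold P
  rw [← Z3.cv_sub, Z3.det_cv]

theorem dd_eq (K : PolyKnot) (hP : K.P = Z.P) (i j : ℤ) :
    det3 e.cv (edge K.P i) (edge K.P j) = (Z.dd e (Z.rs i) (Z.rs j) : ℝ) := by
  unfold dd
  rw [hP, edge_P, edge_P, Z3.det_cv]

theorem de_eq (a b : ℕ) : Z.de e a b = -Z.dd e a b := by
  unfold de dd Z3.det; ring

theorem dd_symm (a b : ℕ) : Z.dd e b a = -Z.dd e a b := by
  unfold dd Z3.det; ring

theorem div_pos_iff' (p q : ℝ) : 0 < p / q ↔ 0 < p * q := by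
  rw [div_pos_iff, mul_pos_iff]

theorem div_lt_one_iff' (p q : ℝ) (hq : q ≠ 0) : p / q < 1 ↔ p * q < q * q := by
  have h2 : 0 < q * q := mul_self_pos.2 hq
  constructor
  · intro h
    have := mul_lt_mul_of_pos_right h h2
    rw [one_mul] at this
    calc p * q = p / q * (q * q) := by field_simp
      _ < q * q := this
  · intro h
    by_contra hc
    push Not at hc
    have := mul_le_mul_of_nonneg_right hc h2.le
    rw [one_mul] at this
    have h3 : p / q * (q * q) = p * q := by field_simp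
    rw [h3] at this
    linarith

theorem div_lt_div_iff' (p q r s : ℝ) (hq : q ≠ 0) (hs : s ≠ 0) :
    p / q < r / s ↔ p * q * (s * s) < r * s * (q * q) := by
  have h2 : 0 < (q * q) * (s * s) := mul_pos (mul_self_pos.2 hq) (mul_self_pos.2 hs)
  rw [← mul_lt_mul_iff_of_pos_right h2]
  have e1 : p / q * (q * q * (s * s)) = p * q * (s * s) := by field_simp
  have e2 : r / s * (q * q * (s * s)) = r * s * (q * q) := by field_simp
  rw [e1, e2]

theorem under_iff (K : PolyKnot) (hP : K.P = Z.P) (i j : ℤ) :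
    Under K e.cv i j ↔ Z.U e (Z.rs i) (Z.rs j) := by
  unfold Under U
  rw [Z.dd_eq e K hP, Z.xpos_eq e K hP, Z.xpos_eq e K hP, Z.alt_eq e K hP]
  constructor
  · rintro ⟨h0, ⟨h1, h2⟩, ⟨h3, h4⟩, h5⟩
    have h0' : Z.dd e (Z.rs i) (Z.rs j) ≠ 0 := by exact_mod_cast h0
    have q1 : (Z.de e (Z.rs i) (Z.rs j) : ℝ) ≠ 0 := by
      rw [Z.de_eq]; push_cast; simpa using h0
    have q2 : (Z.de e (Z.rs j) (Z.rs i) : ℝ) ≠ 0 := by
      rw [Z.de_eq, Z.dd_symm]; push_cast; simpa using h0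
    rw [div_pos_iff'] at h1 h3 h5
    rw [div_lt_one_iff' _ _ q1] at h2
    rw [div_lt_one_iff' _ _ q2] at h4
    exact ⟨h0', ⟨by exact_mod_cast h1, by exact_mod_cast h2⟩,
      ⟨by exact_mod_cast h3, by exact_mod_cast h4⟩, by exact_mod_cast h5⟩
  · rintro ⟨h0, ⟨h1, h2⟩, ⟨h3, h4⟩, h5⟩
    have h0' : (Z.dd e (Z.rs i) (Z.rs j) : ℝ) ≠ 0 := by exact_mod_cast h0
    have q1 : (Z.de e (Z.rs i) (Z.rs j) : ℝ) ≠ 0 := by
      rw [Z.de_eq]; push_cast; simpa using h0'
    have q2 : (Z.de e (Z.rs j) (Z.rs i) : ℝ) ≠ 0 := by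
      rw [Z.de_eq, Z.dd_symm]; push_cast; simpa using h0'
    rw [div_pos_iff', div_pos_iff', div_pos_iff', div_lt_one_iff' _ _ q1,
      div_lt_one_iff' _ _ q2]
    exact ⟨h0', ⟨by exact_mod_cast h1, by exact_mod_cast h2⟩,
      ⟨by exact_mod_cast h3, by exact_mod_cast h4⟩, by exact_mod_cast h5⟩

theorem U_de_ne {a b : ℕ} (h : Z.U e a b) : (Z.de e a b : ℝ) ≠ 0 := by
  have h0 : (Z.dd e a b : ℝ) ≠ 0 := by exact_mod_cast h.1
  rw [Z.de_eq]; push_cast; simpa using h0

theorem cnt_eq (K : PolyKnot) (hn : K.n = Z.n) (hP : K.P = Z.P) (i j : ℤ)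
    (hj : Z.de e (Z.rs i) (Z.rs j) ≠ 0) :
    cnt K e.cv i (xpos K e.cv i j) = Z.cntZ e (Z.rs i) (Z.rs j) := by
  unfold cnt cntZ
  rw [hn]
  congr 1
  ext l
  simp only [Finset.mem_filter]
  apply and_congr_right
  intro hl
  have hl' : l < Z.n := Finset.mem_range.1 hl
  rw [Z.under_iff e K hP, Z.rs_natCast hl']
  constructor
  · rintro ⟨h1, h2⟩
    refine ⟨h1, ?_⟩
    rw [Z.xpos_eq e K hP, Z.xpos_eq e K hP, Z.rs_natCast hl',
      div_lt_div_iff' _ _ _ _ (Z.U_de_ne e h1) (by exact_mod_cast hj)] at h2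
    unfold Lt
    exact_mod_cast h2
  · rintro ⟨h1, h2⟩
    refine ⟨h1, ?_⟩
    rw [Z.xpos_eq e K hP, Z.xpos_eq e K hP, Z.rs_natCast hl',
      div_lt_div_iff' _ _ _ _ (Z.U_de_ne e h1) (by exact_mod_cast hj)]
    unfold Lt at h2
    exact_mod_cast h2

theorem tot_eq (K : PolyKnot) (hn : K.n = Z.n) (hP : K.P = Z.P) (i : ℤ) :
    cnt K e.cv i 1 = Z.totZ e (Z.rs i) := by
  unfold cnt totZ
  rw [hn]
  congr 1
  ext l
  simp only [Finset.mem_filter]
  apply and_congr_right
  intro hl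
  have hl' : l < Z.n := Finset.mem_range.1 hl
  rw [Z.under_iff e K hP, Z.rs_natCast hl']
  constructor
  · exact fun h => h.1
  · intro h
    refine ⟨h, ?_⟩
    have := (Z.under_iff e K hP i l).2 (by rwa [Z.rs_natCast hl'])
    exact this.2.1.2

theorem sgn_eq (K : PolyKnot) (hP : K.P = Z.P) (i j : ℤ) :
    sgn K e.cv i j = if 0 < Z.dd e (Z.rs i) (Z.rs j) then 1 else -1 := by
  unfold sgn
  rw [Z.dd_eq e K hP]
  simp only [Int.cast_pos]

/-- no triple points -/
def V3 (a b c : ℕ) : Prop :=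
  Z.U e a b → Z.U e a c → b ≠ c → Z.Lt e a b c ∨ Z.Lt e a c b

instance (a b c : ℕ) : Decidable (Z.V3 e a b c) := by unfold V3; infer_instance

/-- The checks for a generic view. -/
structure GoodView (w1 : ℕ → Z3) (w2 : ℕ → ℕ → Z3) : Prop where
  e0 : e ≠ ⟨0, 0, 0⟩
  v1 : ∀ a < Z.n, (w1 a).dot e = 0 ∧ (w1 a).dot (Z.ed a) ≠ 0
  v2 : ∀ a < Z.n, ∀ b < Z.n, a ≠ b → a ≠ Z.nx b → (w2 a b).dot e = 0 ∧
    (w2 a b).dot (Z.tab a) < (w2 a b).dot (Z.tab b) ∧
    (w2 a b).dot (Z.tab a) < (w2 a b).dot (Z.tab (Z.nx b))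
  v3 : ∀ a < Z.n, ∀ b < Z.n, ∀ c < Z.n, Z.V3 e a b c

variable {e}

theorem GoodView.view {w1 : ℕ → Z3} {w2 : ℕ → ℕ → Z3} (h : Z.GoodView e w1 w2) (K : PolyKnot)
    (hn : K.n = Z.n) (hP : K.P = Z.P) : View K e.cv where
  vert := by
    intro i j x c hx0 hx1 hc
    have hlin : ∀ w : Z3, w.dot e = 0 →
        (w.dot (Z.tab (Z.rs j)) : ℝ) + x * (w.dot (Z.ed (Z.rs j)) : ℝ) =
          w.dot (Z.tab (Z.rs i)) := by
      intro w hw
      have h1 := congrArg (fun v => w.cv ⬝ᵥ v) hc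
      rw [hP] at h1
      simp only [dotProduct_add, dotProduct_smul, smul_eq_mul, edge_P, P, Z3.dot_cv, hw] at h1
      simpa using h1
    have hed : ∀ w : Z3, (w.dot (Z.ed (Z.rs j)) : ℝ) =
        (w.dot (Z.tab (Z.nx (Z.rs j))) : ℝ) - w.dot (Z.tab (Z.rs j)) := by
      intro w
      unfold ed
      rw [← Z3.dot_cv, Z3.cv_sub, dotProduct_sub, Z3.dot_cv, Z3.dot_cv]
    have he : ∀ s : ℝ, s • edge K.P j = c • e.cv → c = 0 := by
      intro s hs
      obtain ⟨q1, q2⟩ := h.v1 _ (Z.rs_lt j)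
      have h1 := congrArg (fun v => (w1 (Z.rs j)).cv ⬝ᵥ v) hs
      rw [hP] at h1
      simp only [dotProduct_smul, smul_eq_mul, edge_P, Z3.dot_cv, q1] at h1
      have hs0 : s = 0 := by
        rcases mul_eq_zero.1 (h1.trans (by simp)) with h2 | h2
        · exact h2
        · exact absurd (by exact_mod_cast h2) q2
      rw [hs0, zero_smul] at hs
      by_contra hc0
      have he0 : e.cv = 0 := by
        rcases smul_eq_zero.1 hs.symm with h3 | h3
        · exact absurd h3 hc0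
        · exact h3
      apply h.e0
      have a0 := congrFun he0 0
      have a1 := congrFun he0 1
      have a2 := congrFun he0 2
      simp only [Z3.cv, Matrix.cons_val_zero, Matrix.cons_val_one, Matrix.cons_val,
        Pi.zero_apply, Int.cast_eq_zero] at a0 a1 a2
      ext <;> assumption
    by_cases h1 : Z.rs i = Z.rs j
    · apply he x
      have : K.P i = K.P j := by rw [hP]; unfold P; rw [h1]
      rw [this] at hc
      exact add_left_cancel hc
    by_cases h2 : Z.rs i = Z.nx (Z.rs j)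
    · apply he (x - 1)
      have : K.P i = K.P j + edge K.P j := by
        rw [hP, edge_P]
        unfold P ed
        rw [h2, Z3.cv_sub]
        abel
      rw [this, add_assoc] at hc
      have h3 := add_left_cancel hc
      rw [sub_smul, one_smul, h3]
      abel
    · exfalso
      obtain ⟨q0, q1, q2⟩ := h.v2 _ (Z.rs_lt i) _ (Z.rs_lt j) h1 h2
      have h3 := hlin _ q0
      rw [hed] at h3
      have r1 : ((w2 (Z.rs i) (Z.rs j)).dot (Z.tab (Z.rs i)) : ℝ) <
        (w2 (Z.rs i) (Z.rs j)).dot (Z.tab (Z.rs j)) := by exact_mod_cast q1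
      have r2 : ((w2 (Z.rs i) (Z.rs j)).dot (Z.tab (Z.rs i)) : ℝ) <
        (w2 (Z.rs i) (Z.rs j)).dot (Z.tab (Z.nx (Z.rs j))) := by exact_mod_cast q2
      generalize ((w2 (Z.rs i) (Z.rs j)).dot (Z.tab (Z.rs i)) : ℝ) = p at h3 r1 r2
      generalize ((w2 (Z.rs i) (Z.rs j)).dot (Z.tab (Z.rs j)) : ℝ) = A at h3 r1
      generalize ((w2 (Z.rs i) (Z.rs j)).dot (Z.tab (Z.nx (Z.rs j))) : ℝ) = B at h3 r2
      have k1 : 0 ≤ (1 - x) * (A - p) := mul_nonneg (by linarith) (by linarith)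
      have k2 : 0 ≤ x * (B - p) := mul_nonneg hx0 (by linarith)
      have k3 : (1 - x) * (A - p) + x * (B - p) = 0 := by linarith
      have k4 : (1 - x) * (A - p) = 0 := by linarith
      have k5 : x * (B - p) = 0 := by linarith
      rcases mul_eq_zero.1 k5 with k6 | k6
      · rw [k6] at k4; linarith
      · linarith
  triple := by
    intro i j l h1 h2 h3
    rw [hn]
    rw [Z.under_iff e K hP] at h1 h2
    by_contra hnd
    have hne : Z.rs j ≠ Z.rs l := fun h => hnd ((Z.rs_eq_iff j l).1 h)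
    rw [Z.xpos_eq e K hP, Z.xpos_eq e K hP] at h3
    rcases h.v3 _ (Z.rs_lt i) _ (Z.rs_lt j) _ (Z.rs_lt l) h1 h2 hne with h4 | h4
    · have := (div_lt_div_iff' (Z.nu e (Z.rs i) (Z.rs j)) _ (Z.nu e (Z.rs i) (Z.rs l)) _
        (Z.U_de_ne e h1) (Z.U_de_ne e h2)).2 (by unfold Lt at h4; exact_mod_cast h4)
      exact absurd h3 this.ne
    · have := (div_lt_div_iff' (Z.nu e (Z.rs i) (Z.rs l)) _ (Z.nu e (Z.rs i) (Z.rs j)) _
        (Z.U_de_ne e h2) (Z.U_de_ne e h1)).2 (by unfold Lt at h4; exact_mod_cast h4)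
      exact absurd h3.symm this.ne

end View

end ZP

end Pool.Agent.helper82.SBK
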